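import Pool.Agent.Helper30.KB.Rev

/-!
# Neighbouring half-edges and colours
-/

namespace Pool.Agent.Helper30.KB

open Finset Helper30.KO

variable {n : ℕ} {a : Arr n}

lemma rk_succ {S : Finset (Fin n)} {i j : Fin n} (hi : i ∈ S) (hij : i < j)
    (hno : ∀ k ∈ S, i < k → j ≤ k) : rk S j = rk S i + 1 := by
  unfold rk
  have : S.filter (· < j) = insert i (S.filter (· < i)) := by
    ext k
    simp only [mem_filter, mem_insert]
    constructor
    · rintro ⟨hk, hkj⟩
      by_cases hki : k = i
      · exact Or.inl hki
      · right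
        refine ⟨hk, ?_⟩
        by_contra hc
        have : i < k := lt_of_le_of_ne (not_lt.mp hc) (Ne.symm hki)
        exact absurd (hno k hk this) (not_le.mpr hkj)
    · rintro (rfl | ⟨hk, hki⟩)
      · exact ⟨hi, hij⟩
      · exact ⟨hk, hki.trans hij⟩
  rw [this, Finset.card_insert_of_notMem (by simp)]

lemma rk_max {S : Finset (Fin n)} {i : Fin n} (hi : i ∈ S) (hmax : ∀ k ∈ S, k ≤ i) :
    rk S i + 1 = S.card := by
  unfold rk
  have : S = insert i (S.filter (· < i)) := by
    ext k
    simp only [mem_filter, mem_insert]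
    constructor
    · intro hk
      by_cases hki : k = i
      · exact Or.inl hki
      · exact Or.inr ⟨hk, lt_of_le_of_ne (hmax k hk) hki⟩
    · rintro (rfl | ⟨hk, _⟩)
      · exact hi
      · exact hk
  conv_rhs => rw [this]
  rw [Finset.card_insert_of_notMem (by simp)]

lemma rk_min {S : Finset (Fin n)} {j : Fin n} (hmin : ∀ k ∈ S, j ≤ k) : rk S j = 0 := by
  unfold rk
  rw [Finset.card_eq_zero, Finset.filter_eq_empty_iff]
  intro k hk
  exact not_lt.mpr (hmin k hk)

/-- the next half-edge is on the next line -/
lemma nx_next {h : HE a} {j : Fin n} (hj : j ∈ h.S) (hij : h.i < j)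
    (hno : ∀ k ∈ h.S, h.i < k → j ≤ k) :
    h.nx = mkH j h.x h.b (vals_of_mem a h.hx hj) := by
  have h1 := rk_succ h.i_mem hij hno
  have h2 := rk_lt h.S hj
  have hc := h.two_le
  have hix : (h.ix + 1) % h.S.card = rk h.S j := by
    have := idx_mod h.S h.i_mem h.b
    rw [Nat.add_mod]
    change idx h.S h.i h.b % h.S.card = _ at this
    have e : h.ix % h.S.card = rk h.S h.i := this
    rw [e, h1]
    have : 1 % h.S.card = 1 := Nat.mod_eq_of_lt (by omega)
    rw [this]
    apply Nat.mod_eq_of_lt
    omega
  apply HE.ext'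
  · change el h.S h.S_ne (h.ix + 1) = j
    exact el_rk _ _ hj hix
  · rfl
  · change dirAt h.S.card (h.ix + 1) = h.b
    unfold dirAt HE.ix idx
    rcases hb : h.b with _ | _
    · simp only [Bool.false_eq_true, if_false]
      have : (rk h.S h.i + h.S.card + 1) / h.S.card = 1 := by
        rw [Nat.div_eq_iff (by omega)]
        omega
      rw [this]; simp
    · simp only [if_true]
      have : (rk h.S h.i + 0 + 1) / h.S.card = 0 := by
        rw [Nat.div_eq_zero_iff]
        omega
      rw [this]; simp

/-- after the last line the first one follows, in the opposite direction -/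
lemma nx_wrap {h : HE a} {j : Fin n} (hj : j ∈ h.S) (hmax : ∀ k ∈ h.S, k ≤ h.i)
    (hmin : ∀ k ∈ h.S, j ≤ k) :
    h.nx = mkH j h.x (!h.b) (vals_of_mem a h.hx hj) := by
  have h1 := rk_max h.i_mem hmax
  have h0 := rk_min hmin
  have hc := h.two_le
  have hix : (h.ix + 1) % h.S.card = rk h.S j := by
    have := idx_mod h.S h.i_mem h.b
    have e : h.ix % h.S.card = rk h.S h.i := this
    rw [h0, Nat.add_mod, e]
    have : 1 % h.S.card = 1 := Nat.mod_eq_of_lt (by omega)
    rw [this, h1, Nat.mod_self]
  apply HE.ext'
  · change el h.S h.S_ne (h.ix + 1) = j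
    exact el_rk _ _ hj hix
  · rfl
  · change dirAt h.S.card (h.ix + 1) = !h.b
    unfold dirAt HE.ix idx
    rcases hb : h.b with _ | _
    · simp only [Bool.false_eq_true, if_false]
      have : (rk h.S h.i + h.S.card + 1) / h.S.card = 2 := by
        rw [Nat.div_eq_iff (by omega)]
        omega
      rw [this]; simp
    · simp only [if_true]
      have : (rk h.S h.i + 0 + 1) / h.S.card = 1 := by
        rw [Nat.div_eq_iff (by omega)]
        omega
      rw [this]; simp

open Classical in
/-- number of lines passing below the vertex -/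
noncomputable def below (a : Arr n) (i : Fin n) (x : ℝ) : ℕ :=
  (univ.filter (fun l => l ≠ i ∧ ((l < i ∧ a.X i l < x) ∨ (i < l ∧ x < a.X i l)))).card

lemma below_aux {i j : Fin n} {x : ℝ} (hij : i < j) (hx : a.X i j = x) :
    below a i x = below a j x := by
  unfold below
  congr 1
  ext l
  simp only [mem_filter, mem_univ, true_and]
  have s1 := a.sym i j
  have s2 := a.sym i l
  have s3 := a.sym j l
  rcases lt_trichotomy l i with h1 | h1 | h1
  · have h2 : l < j := h1.trans hij
    have e1 : ¬ (i < l) := not_lt.mpr h1.le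
    have e2 : ¬ (j < l) := not_lt.mpr h2.le
    simp only [h1, h2, e1, e2, true_and, false_and, or_false, h1.ne, h2.ne, ne_eq,
      not_false_eq_true]
    rcases a.bt l i j h1 hij with h3 | h3 | h3
    · constructor <;> intro _ <;> linarith [h3.1, h3.2]
    · constructor <;> intro _ <;> linarith [h3.1, h3.2]
    · constructor <;> intro _ <;> linarith [h3.1, h3.2]
  · subst h1
    have e1 : ¬ (j < l) := not_lt.mpr hij.le
    simp only [hij, e1, lt_irrefl, ne_eq, not_true_eq_false, false_and, true_and, or_false,
      hij.ne, not_false_eq_true]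
    constructor
    · intro h; exact h.elim
    · intro h; linarith
  · rcases lt_trichotomy l j with h2 | h2 | h2
    · have e1 : ¬ (l < i) := not_lt.mpr h1.le
      have e2 : ¬ (j < l) := not_lt.mpr h2.le
      simp only [h1, h2, e1, e2, true_and, false_and, or_false, false_or, h1.ne', h2.ne, ne_eq,
        not_false_eq_true]
      rcases a.bt i l j h1 h2 with h3 | h3 | h3
      · constructor <;> intro _ <;> linarith [h3.1, h3.2]
      · constructor <;> intro _ <;> linarith [h3.1, h3.2]
      · constructor <;> intro _ <;> linarith [h3.1, h3.2]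
    · subst h2
      have e1 : ¬ (l < i) := not_lt.mpr h1.le
      simp only [hij, e1, lt_irrefl, ne_eq, not_true_eq_false, false_and, true_and, false_or,
        hij.ne', not_false_eq_true]
      constructor
      · intro h; linarith
      · intro h; exact h.elim
    · have e1 : ¬ (l < i) := not_lt.mpr h1.le
      have e2 : ¬ (l < j) := not_lt.mpr h2.le
      simp only [h1, h2, e1, e2, true_and, false_and, false_or, h1.ne', h2.ne', ne_eq,
        not_false_eq_true]
      rcases a.bt i j l hij h2 with h3 | h3 | h3
      · constructor <;> intro _ <;> linarith [h3.1, h3.2]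
      · constructor <;> intro _ <;> linarith [h3.1, h3.2]
      · constructor <;> intro _ <;> linarith [h3.1, h3.2]

lemma below_eq {i j : Fin n} {x : ℝ} (hj : j ∈ Ls a i x) : below a j x = below a i x := by
  rcases lt_trichotomy i j with h | h | h
  · rcases (mem_Ls a).mp hj with h1 | h1
    · rw [h1]
    · exact (below_aux h h1).symm
  · rw [h]
  · rcases (mem_Ls a).mp hj with h1 | h1
    · rw [h1]
    · exact below_aux h (by rw [a.sym, h1])

/-- colour of the cell between `h` and `h.nx` -/
noncomputable def HE.col (h : HE a) : Bool := decide ((below a h.i h.x + h.ix) % 2 = 0)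

lemma col_nx (h : HE a) : h.nx.col = !h.col := by
  unfold HE.col
  have h1 : below a h.nx.i h.nx.x = below a h.i h.x := by
    apply below_eq
    exact el_mem h.S h.S_ne _
  have h2 : h.nx.ix = (h.ix + 1) % (2 * h.S.card) := h.ix_nth _
  have h3 : (below a h.i h.x + (h.ix + 1) % (2 * h.S.card)) % 2 =
      (below a h.i h.x + (h.ix + 1)) % 2 := by
    rw [Nat.add_mod, Nat.mod_mul_right_mod, ← Nat.add_mod]
  rw [h1, h2, h3]
  rcases Nat.mod_two_eq_zero_or_one (below a h.i h.x + h.ix) with h4 | h4
  · have : (below a h.i h.x + (h.ix + 1)) % 2 = 1 := by omega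
    simp [h4, this]
  · have : (below a h.i h.x + (h.ix + 1)) % 2 = 0 := by omega
    simp [h4, this]

/-- counting the lines below the edge in two ways -/
lemma below_edge {i : Fin n} {x y : ℝ} (hN : Nxt a i x true y) :
    below a i x + rk (Ls a i x) i + rk (Ls a i y) i + 1 =
      below a i y + (Ls a i y).card := by
  classical
  have hxy : x < y := (dl_true _ _).mp hN.2.1
  have hbt : ∀ l, l ≠ i → (a.X i l ≤ x ∨ y ≤ a.X i l) := by
    intro l hl
    by_contra hc
    push Not at hc
    exact hN.2.2 (a.X i l) (X_mem_vals a hl) ((dl_true _ _).mpr hc.1) ((dl_true _ _).mpr hc.2)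
  have h1 : below a i x = ∑ l : Fin n, if l ≠ i ∧ ((l < i ∧ a.X i l < x) ∨
      (i < l ∧ x < a.X i l)) then 1 else 0 := by
    unfold below; rw [Finset.card_filter]
  have h2 : below a i y = ∑ l : Fin n, if l ≠ i ∧ ((l < i ∧ a.X i l < y) ∨
      (i < l ∧ y < a.X i l)) then 1 else 0 := by
    unfold below; rw [Finset.card_filter]
  have h3 : rk (Ls a i x) i = ∑ l : Fin n, if l < i ∧ a.X i l = x then 1 else 0 := by
    unfold rk Ls
    rw [Finset.filter_filter, Finset.card_filter]
    apply Finset.sum_congr rfl
    intro l _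
    congr 1
    apply propext
    constructor
    · rintro ⟨h | h, h'⟩
      · exact absurd h h'.ne
      · exact ⟨h', h⟩
    · rintro ⟨h', h⟩
      exact ⟨Or.inr h, h'⟩
  have h4 : rk (Ls a i y) i = ∑ l : Fin n, if l < i ∧ a.X i l = y then 1 else 0 := by
    unfold rk Ls
    rw [Finset.filter_filter, Finset.card_filter]
    apply Finset.sum_congr rfl
    intro l _
    congr 1
    apply propext
    constructor
    · rintro ⟨h | h, h'⟩
      · exact absurd h h'.ne
      · exact ⟨h', h⟩
    · rintro ⟨h', h⟩
      exact ⟨Or.inr h, h'⟩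
  have h5 : (Ls a i y).card = ∑ l : Fin n, if (l = i ∨ a.X i l = y) then 1 else 0 := by
    unfold Ls
    rw [Finset.card_filter]
  have h6 : (1 : ℕ) = ∑ l : Fin n, if l = i then 1 else 0 := by simp
  rw [h1, h2, h3, h4, h5]
  conv_lhs => rw [h6]
  rw [← Finset.sum_add_distrib, ← Finset.sum_add_distrib, ← Finset.sum_add_distrib,
    ← Finset.sum_add_distrib]
  apply Finset.sum_congr rfl
  intro l _
  rcases lt_trichotomy l i with hl | hl | hl
  · have e1 : ¬ (i < l) := not_lt.mpr hl.le
    simp only [hl, hl.ne, e1, true_and, false_and, or_false, false_or, ne_eq, not_false_eq_true,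
      if_false]
    rcases hbt l hl.ne with h | h
    · rcases lt_or_eq_of_le h with h | h
      · have e2 : a.X i l ≠ x := h.ne
        have e3 : a.X i l ≠ y := by linarith
        have e4 : a.X i l < y := by linarith
        simp [h, e2, e3, e4]
      · have e3 : a.X i l ≠ y := by linarith
        have e4 : a.X i l < y := by linarith
        have e5 : ¬ a.X i l < x := by linarith
        simp only [h] at *
        simp [hxy, hxy.ne]
    · have e1 : ¬ a.X i l < x := by linarith
      have e2 : a.X i l ≠ x := by linarith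
      have e3 : ¬ a.X i l < y := by linarith
      simp [e1, e2, e3]
  · subst hl
    simp
  · have e1 : ¬ (l < i) := not_lt.mpr hl.le
    simp only [hl, hl.ne', e1, true_and, false_and, false_or, ne_eq, not_false_eq_true,
      if_false]
    rcases hbt l hl.ne' with h | h
    · have e2 : ¬ x < a.X i l := by linarith
      have e3 : ¬ y < a.X i l := by linarith
      have e4 : a.X i l ≠ y := by linarith
      simp [e2, e3, e4]
    · rcases lt_or_eq_of_le h with h | h
      · have e2 : x < a.X i l := by linarith
        have e4 : a.X i l ≠ y := by linarith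
        simp [h, e2, e4]
      · have e2 : x < a.X i l := by linarith
        simp [← h, hxy]

lemma col_rv_aux {h : HE a} (hb : h.b = true) (hr : h.rv ≠ h) : h.rv.col = !h.col := by
  obtain ⟨y, hy⟩ := nxt_of_ne hr
  rw [rv_of hy]
  have hy' := hy
  rw [hb] at hy'
  have h1 := below_edge hy'
  unfold HE.col
  have e1 : h.ix = rk (Ls a h.i h.x) h.i := by
    unfold HE.ix idx HE.S
    rw [hb]; simp
  have e2 : (mkH h.i y (!h.b) hy.1).ix = rk (Ls a h.i y) h.i + (Ls a h.i y).card := by
    unfold HE.ix idx HE.S
    rw [mkH_b, mkH_i, mkH_x, hb]; simp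
  rw [e1, e2, mkH_i, mkH_x]
  set A := below a h.i h.x
  set B := below a h.i y
  set r := rk (Ls a h.i h.x) h.i
  set s := rk (Ls a h.i y) h.i
  set c := (Ls a h.i y).card
  rcases Nat.mod_two_eq_zero_or_one (A + r) with h4 | h4
  · have : (B + (s + c)) % 2 = 1 := by omega
    simp [h4, this]
  · have : (B + (s + c)) % 2 = 0 := by omega
    simp [h4, this]

lemma col_rv (h : HE a) (hr : h.rv ≠ h) : h.rv.col = !h.col := by
  rcases hb : h.b with _ | _
  · have h1 : h.rv.b = true := by rw [h.rv_b hr, hb]; rfl
    have h2 : h.rv.rv ≠ h.rv := by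
      rw [h.rv_rv]; exact hr.symm
    have h3 := col_rv_aux h1 h2
    rw [h.rv_rv] at h3
    rw [h3]; simp
  · exact col_rv_aux hb hr

/-- colour at a ray -/
lemma col_ray {h : HE a} (hr : h.rv = h) :
    h.col = decide ((if h.b then (h.i : ℕ) else n - h.i) % 2 = 0) := by
  classical
  have hmax := ray_of_rv hr
  have h1 : below a h.i h.x = ∑ l : Fin n, if l ≠ h.i ∧ ((l < h.i ∧ a.X h.i l < h.x) ∨
      (h.i < l ∧ h.x < a.X h.i l)) then 1 else 0 := by
    unfold below; rw [Finset.card_filter]
  have h3 : rk (Ls a h.i h.x) h.i =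
      ∑ l : Fin n, if l < h.i ∧ a.X h.i l = h.x then 1 else 0 := by
    unfold rk Ls
    rw [Finset.filter_filter, Finset.card_filter]
    apply Finset.sum_congr rfl
    intro l _
    congr 1
    apply propext
    constructor
    · rintro ⟨h | h, h'⟩
      · exact absurd h h'.ne
      · exact ⟨h', h⟩
    · rintro ⟨h', h⟩
      exact ⟨Or.inr h, h'⟩
  rcases hb : h.b with _ | _
  · rw [hb] at hmax
    have hge : ∀ l, l ≠ h.i → h.x ≤ a.X h.i l := by
      intro l hl
      have := hmax _ (X_mem_vals a hl)
      rw [dl_false, not_lt] at this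
      exact this
    have h5 : (Ls a h.i h.x).card =
        ∑ l : Fin n, if (l = h.i ∨ a.X h.i l = h.x) then 1 else 0 := by
      unfold Ls
      rw [Finset.card_filter]
    have h6 : n - (h.i : ℕ) = ∑ l : Fin n, if h.i ≤ l then 1 else 0 := by
      rw [← Finset.card_filter]
      have : (univ.filter (fun l : Fin n => h.i ≤ l)) = Finset.Ici h.i := by
        ext l; simp
      rw [this, Fin.card_Ici]
    have h7 : below a h.i h.x + (Ls a h.i h.x).card =
        (n - (h.i : ℕ)) + rk (Ls a h.i h.x) h.i := by
      rw [h1, h3, h5, h6, ← Finset.sum_add_distrib, ← Finset.sum_add_distrib]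
      apply Finset.sum_congr rfl
      intro l _
      rcases lt_trichotomy l h.i with hl | hl | hl
      · have e1 : ¬ (h.i < l) := not_lt.mpr hl.le
        have e2 : ¬ (h.i ≤ l) := not_le.mpr hl
        have e3 : ¬ a.X h.i l < h.x := not_lt.mpr (hge l hl.ne)
        simp [hl, hl.ne, e1, e2, e3]
      · subst hl
        simp
      · have e1 : ¬ (l < h.i) := not_lt.mpr hl.le
        rcases lt_or_eq_of_le (hge l hl.ne') with h8 | h8
        · simp [hl, hl.ne', e1, hl.le, h8, h8.ne']
        · simp [hl, hl.ne', e1, hl.le, ← h8]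
    have e1 : h.ix = rk (Ls a h.i h.x) h.i + (Ls a h.i h.x).card := by
      unfold HE.ix idx HE.S
      rw [hb]; simp
    unfold HE.col
    rw [e1]
    simp only [Bool.false_eq_true, if_false]
    congr 1
    apply propext
    omega
  · rw [hb] at hmax
    have hle : ∀ l, l ≠ h.i → a.X h.i l ≤ h.x := by
      intro l hl
      have := hmax _ (X_mem_vals a hl)
      rw [dl_true, not_lt] at this
      exact this
    have h6 : (h.i : ℕ) = ∑ l : Fin n, if l < h.i then 1 else 0 := by
      rw [← Finset.card_filter]
      have : (univ.filter (fun l : Fin n => l < h.i)) = Finset.Iio h.i := by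
        ext l; simp
      rw [this, Fin.card_Iio]
    have h7 : below a h.i h.x + rk (Ls a h.i h.x) h.i = (h.i : ℕ) := by
      conv_rhs => rw [h6]
      rw [h1, h3, ← Finset.sum_add_distrib]
      apply Finset.sum_congr rfl
      intro l _
      rcases lt_trichotomy l h.i with hl | hl | hl
      · have e1 : ¬ (h.i < l) := not_lt.mpr hl.le
        rcases lt_or_eq_of_le (hle l hl.ne) with h8 | h8
        · simp [hl, hl.ne, e1, h8, h8.ne]
        · simp [hl, hl.ne, e1, h8]
      · subst hl
        simp
      · have e1 : ¬ (l < h.i) := not_lt.mpr hl.le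
        have e3 : ¬ h.x < a.X h.i l := not_lt.mpr (hle l hl.ne')
        simp [hl, hl.ne', e1, e3]
    have e1 : h.ix = rk (Ls a h.i h.x) h.i := by
      unfold HE.ix idx HE.S
      rw [hb]; simp
    unfold HE.col
    rw [e1, h7]
    simp only [if_true]

end Pool.Agent.Helper30.KB
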