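import Pool.Agent.Helper30.KP.Geo

/-!
# Checking explicit arrangements with integer coefficients
-/

namespace Pool.Agent.Helper30.KB

open Finset Helper30.KO Helper30.KP

/-- determinant of the lines `y = m i x + b i` -/
def dz (m b : ℕ → ℤ) (i j l : ℕ) : ℤ :=
  m i * (b l - b j) + m j * (b i - b l) + m l * (b j - b i)

/-- the line `q` does not separate the vertices of the triangle `i, j, k` -/
def okq (m b : ℕ → ℤ) (i j k q : ℕ) : Bool :=
  let x := dz m b q i j * (m j - m i)
  let y := dz m b q i k * (m k - m i)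
  let z := dz m b q j k * (m k - m j)
  (decide (0 ≤ x) && decide (0 ≤ y) && decide (0 ≤ z)) ||
    (decide (x ≤ 0) && decide (y ≤ 0) && decide (z ≤ 0))

/-- the lines `i, j, k` form an empty triangle -/
def okt (N : ℕ) (m b : ℕ → ℤ) (t : ℕ × ℕ × ℕ) : Bool :=
  decide (t.1 < t.2.1) && decide (t.2.1 < t.2.2) && decide (t.2.2 < N) &&
    decide (dz m b t.1 t.2.1 t.2.2 ≠ 0) &&
    (List.range N).all (fun q => okq m b t.1 t.2.1 t.2.2 q)

/-- slopes increase -/
def okm (N : ℕ) (m : ℕ → ℤ) : Bool := (List.range (N - 1)).all (fun q => decide (m q < m (q + 1)))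

variable {m b : ℕ → ℤ}

lemma m_lt {N : ℕ} (h : okm N m = true) : ∀ i j, i < j → j < N → m i < m j := by
  have h1 : ∀ q, q + 1 < N → m q < m (q + 1) := by
    intro q hq
    unfold okm at h
    rw [List.all_eq_true] at h
    have := h q (List.mem_range.mpr (by omega))
    exact of_decide_eq_true this
  intro i j hij
  induction j, hij using Nat.le_induction with
  | base => intro hj; exact h1 i hj
  | succ j _ ih => intro hj; exact (ih (by omega)).trans (h1 j hj)

lemma dz_cast (i j l : ℕ) :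
    Dt (fun q => (m q : ℝ)) (fun _ => -1) (fun q => -(b q : ℝ)) i j l = (dz m b i j l : ℝ) := by
  unfold Dt dz
  push_cast
  ring

lemma wd_cast (i j : ℕ) :
    Wd (fun q => (m q : ℝ)) (fun _ => -1) i j = ((m j - m i : ℤ) : ℝ) := by
  unfold Wd
  push_cast
  ring

lemma tri_of_ok {N : ℕ} (hm : okm N m = true) {t : ℕ × ℕ × ℕ} (h : okt N m b t = true) :
    Tri (fun q => (m q : ℝ)) (fun _ => -1) (fun q => -(b q : ℝ)) (N - 1) t.1 t.2.1 t.2.2 := by
  unfold okt at h
  simp only [Bool.and_eq_true, decide_eq_true_eq, List.all_eq_true, List.mem_range] at h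
  obtain ⟨⟨⟨⟨h1, h2⟩, h3⟩, h4⟩, h5⟩ := h
  have hlt := m_lt hm
  have hw : ∀ i j, i < j → j < N →
      Wd (fun q => (m q : ℝ)) (fun _ => -1) i j ≠ 0 := by
    intro i j hij hj
    rw [wd_cast]
    have := hlt i j hij hj
    exact_mod_cast (sub_ne_zero.mpr this.ne')
  refine ⟨h1, h2, by omega, ?_, hw _ _ h1 (by omega), hw _ _ (h1.trans h2) h3, hw _ _ h2 h3, ?_⟩
  · rw [dz_cast]; exact_mod_cast h4
  · intro q hq _ _ _
    have h6 := h5 q (by omega)
    unfold okq at h6
    simp only [Bool.or_eq_true, Bool.and_eq_true, decide_eq_true_eq] at h6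
    simp only [dz_cast, wd_cast]
    rcases h6 with ⟨⟨u, v⟩, w⟩ | ⟨⟨u, v⟩, w⟩
    · left
      exact ⟨by exact_mod_cast u, by exact_mod_cast v, by exact_mod_cast w⟩
    · right
      exact ⟨by exact_mod_cast u, by exact_mod_cast v, by exact_mod_cast w⟩

/-- **Explicit arrangements.** -/
theorem exists_of_ok {N : ℕ} (hN : 1 ≤ N) (m b : ℕ → ℤ) (hm : okm N m = true)
    (F : List (ℕ × ℕ × ℕ)) (hF : F.all (okt N m b) = true) (hn : F.Nodup) :
    ∃ L : Finset (Set Plane), L.card = N ∧ (∀ ℓ ∈ L, IsLine ℓ) ∧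
      (F.length : ℕ∞) ≤ {V : Finset Plane | Counted (L : Set (Set Plane)) V}.encard := by
  classical
  let α : ℕ → ℝ := fun q => (m q : ℝ)
  let β : ℕ → ℝ := fun _ => -1
  let γ : ℕ → ℝ := fun q => -(b q : ℝ)
  have hlt := m_lt hm
  have hw : ∀ i j, i < j → j ≤ N - 1 → Wd α β i j ≠ 0 := by
    intro i j hij hj
    rw [wd_cast]
    have := hlt i j hij (by omega)
    exact_mod_cast (sub_ne_zero.mpr this.ne')
  have hne : ∀ q, q ≤ N - 1 → α q ≠ 0 ∨ β q ≠ 0 := fun q _ => Or.inr (by simp [β])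
  have hinj : Set.InjOn (fl α β γ) ((Finset.range N : Finset ℕ) : Set ℕ) := by
    intro i hi j hj he
    simp only [coe_range, Set.mem_Iio] at hi hj
    by_contra hne'
    have hW : Wd α β i j ≠ 0 := by
      rcases lt_or_gt_of_ne hne' with h | h
      · exact hw i j h (by omega)
      · have h1 := hw j i h (by omega)
        have h2 : Wd α β i j = - Wd α β j i := by unfold Wd; ring
        rw [h2]; exact neg_ne_zero.mpr h1
    -- two points of the line `i`
    let z : Plane := !₂[0, (b i : ℝ)]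
    let w : Plane := !₂[1, (m i : ℝ) + (b i : ℝ)]
    have hz : z ∈ fl α β γ i := by
      rw [mem_fl]; simp [fn, α, β, γ, z]
    have hw' : w ∈ fl α β γ i := by
      rw [mem_fl]; simp [fn, α, β, γ, w]
    have e := fl_unique hW hz (by rw [← he]; exact hz) hw' (by rw [← he]; exact hw')
    have e0 : z 0 = w 0 := by rw [e]
    simp [z, w] at e0
  refine ⟨(Finset.range N).image (fl α β γ), ?_, ?_, ?_⟩
  · rw [Finset.card_image_of_injOn hinj, Finset.card_range]
  · intro ℓ hℓ
    obtain ⟨q, _, rfl⟩ := Finset.mem_image.mp hℓ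
    exact fl_isLine (Or.inr (by simp [β]))
  · have hT : ∀ t ∈ F.toFinset, Tri α β γ (N - 1) t.1 t.2.1 t.2.2 := by
      intro t ht
      rw [List.mem_toFinset] at ht
      exact tri_of_ok hm (List.all_eq_true.mp hF t ht)
    have hinj2 := vs_inj hw hT
    have hL : ∀ ℓ, ℓ ∈ (((Finset.range N).image (fl α β γ) : Finset (Set Plane)) :
        Set (Set Plane)) ↔ ∃ q, q ≤ N - 1 ∧ ℓ = fl α β γ q := by
      intro ℓ
      rw [Finset.mem_coe, Finset.mem_image]
      constructor
      · rintro ⟨q, hq, rfl⟩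
        exact ⟨q, by have := Finset.mem_range.mp hq; omega, rfl⟩
      · rintro ⟨q, hq, rfl⟩
        exact ⟨q, Finset.mem_range.mpr (by omega), rfl⟩
    have h1 : (F.toFinset.image (vs α β γ)).card = F.length := by
      rw [Finset.card_image_of_injOn hinj2, List.toFinset_card_of_nodup hn]
    rw [← h1, ← Set.encard_coe_eq_coe_finsetCard]
    apply Set.encard_le_encard
    intro V hV
    obtain ⟨t, ht, rfl⟩ := Finset.mem_image.mp (Finset.mem_coe.mp hV)
    exact (hT t ht).counted hne hL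

end Pool.Agent.Helper30.KB
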