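import Pool.Agent.Helper30.KB.Chk

/-!
# 12 lines with 38 triangles
-/

namespace Pool.Agent.Helper30.KB

open Helper30.KO

/-- slopes -/
def m12 (q : ℕ) : ℤ := [-30, -24, -20, -8, -5, -4, 0, 1, 3, 4, 11, 29].getD q 0

/-- intercepts -/
def b12 (q : ℕ) : ℤ := [30, 6, 27, 0, 4, 0, 0, -6, -16, -6, -11, 14].getD q 0

/-- triangles -/
def F12 : List (ℕ × ℕ × ℕ) := [
  (0, 1, 8), (0, 2, 10), (0, 2, 11), (0, 3, 7), (0, 3, 8), (0, 4, 9), (0, 4, 10), (0, 5, 7),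
  (0, 5, 9), (1, 2, 11), (1, 3, 5), (1, 3, 9), (1, 4, 6), (1, 4, 11), (1, 5, 6), (1, 7, 9),
  (1, 7, 10), (1, 8, 10), (2, 3, 8), (2, 4, 7), (2, 4, 9), (2, 5, 7), (2, 5, 8), (2, 6, 9),
  (2, 6, 10), (3, 4, 11), (3, 5, 11), (3, 7, 10), (3, 9, 10), (4, 5, 8), (4, 6, 10), (4, 7, 8),
  (5, 6, 11), (5, 9, 10), (6, 7, 8), (7, 9, 11), (8, 9, 11), (8, 10, 11)]

set_option maxRecDepth 100000 in
theorem lower12 : ∃ L : Finset (Set Plane), L.card = 12 ∧ (∀ ℓ ∈ L, IsLine ℓ) ∧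
    ((38 : ℕ) : ℕ∞) ≤ {V : Finset Plane | Counted (L : Set (Set Plane)) V}.encard :=
  exists_of_ok (N := 12) (by norm_num) m12 b12 (by decide +kernel) F12 (by decide +kernel) (by decide +kernel)

end Pool.Agent.Helper30.KB
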