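import Pool.Agent.Helper30.KB.Chk

/-!
# 16 lines with 72 triangles
-/

namespace Pool.Agent.Helper30.KB

open Helper30.KO

/-- slopes -/
def m16 (q : ℕ) : ℤ := [-107, -74, 12, 34, 36, 50, 58, 60, 65, 69, 79, 80, 97, 124, 131, 397].getD q 0

/-- intercepts -/
def b16 (q : ℕ) : ℤ := [-24, -140, 173, 6, 40, -97, -4, -30, 550, 91, 5, 35, -135, -9, -75, 994].getD q 0

/-- triangles -/
def F16 : List (ℕ × ℕ × ℕ) := [
  (0, 1, 12), (0, 2, 9), (0, 2, 15), (0, 3, 10), (0, 3, 11), (0, 4, 9), (0, 4, 11), (0, 5, 12),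
  (0, 5, 14), (0, 6, 10), (0, 6, 13), (0, 7, 13), (0, 7, 14), (0, 8, 15), (1, 2, 8),
  (1, 2, 15), (1, 3, 9), (1, 3, 11), (1, 4, 9), (1, 4, 15), (1, 5, 13), (1, 5, 14), (1, 6, 10),
  (1, 6, 11), (1, 7, 10), (1, 7, 13), (1, 12, 14), (2, 3, 5), (2, 4, 5), (2, 4, 7), (2, 6, 7),
  (2, 6, 12), (2, 9, 13), (2, 10, 12), (2, 10, 14), (2, 11, 13), (2, 11, 14), (3, 4, 8),
  (3, 4, 15), (3, 5, 12), (3, 6, 13), (3, 6, 14), (3, 7, 12), (3, 7, 14), (3, 9, 15),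
  (3, 10, 13), (4, 6, 12), (4, 6, 14), (4, 7, 12), (4, 10, 13), (4, 10, 14), (4, 11, 13),
  (5, 6, 8), (5, 6, 9), (5, 7, 9), (5, 7, 11), (5, 10, 11), (5, 10, 15), (5, 13, 15),
  (6, 9, 15), (6, 11, 15), (7, 10, 15), (7, 11, 15), (8, 9, 10), (8, 11, 12), (8, 13, 14),
  (9, 10, 12), (9, 11, 12), (9, 11, 14), (9, 13, 14), (12, 13, 15), (12, 14, 15)]

set_option maxRecDepth 100000 in
theorem lower16 : ∃ L : Finset (Set Plane), L.card = 16 ∧ (∀ ℓ ∈ L, IsLine ℓ) ∧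
    ((72 : ℕ) : ℕ∞) ≤ {V : Finset Plane | Counted (L : Set (Set Plane)) V}.encard :=
  exists_of_ok (N := 16) (by norm_num) m16 b16 (by decide +kernel) F16 (by decide +kernel) (by decide +kernel)

end Pool.Agent.Helper30.KB
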