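import Pool.Agent.Helper30.KB.Chk

/-!
# 8 lines with 15 triangles
-/

namespace Pool.Agent.Helper30.KB

open Helper30.KO

/-- slopes -/
def m8 (q : ℕ) : ℤ := [-52, -23, -22, -6, 0, 45, 84, 126].getD q 0

/-- intercepts -/
def b8 (q : ℕ) : ℤ := [0, 688, 0, -543, 0, -1080, 107, -3024].getD q 0

/-- triangles -/
def F8 : List (ℕ × ℕ × ℕ) := [
  (0, 1, 6), (0, 2, 5), (0, 2, 6), (0, 3, 5), (0, 3, 7), (1, 2, 3), (1, 4, 5), (1, 5, 7),
  (1, 6, 7), (2, 3, 7), (2, 4, 5), (2, 4, 6), (2, 5, 7), (3, 4, 6), (3, 5, 6)]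

set_option maxRecDepth 100000 in
theorem lower8 : ∃ L : Finset (Set Plane), L.card = 8 ∧ (∀ ℓ ∈ L, IsLine ℓ) ∧
    ((15 : ℕ) : ℕ∞) ≤ {V : Finset Plane | Counted (L : Set (Set Plane)) V}.encard :=
  exists_of_ok (N := 8) (by norm_num) m8 b8 (by decide +kernel) F8 (by decide +kernel) (by decide +kernel)

end Pool.Agent.Helper30.KB
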