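import Pool.Agent.Helper30.KB.Top
import Pool.Agent.Helper30.KB.Ex8
import Pool.Agent.Helper30.KB.Ex12
import Pool.Agent.Helper30.KB.Ex16
import Pool.Agent.Helper30.KO.Exact
import Pool.Agent.Helper30.KP.Main

/-!
# The values for an even number of at most 16 lines
-/

namespace Pool.Agent.Helper30.KB

open Helper30.KO Helper30.KP

/-- the lower bounds for `n = 2 ^ k + 2` -/
lemma lower_pow (k n T : ℕ) (hk : 1 ≤ k) (hn : n = 2 ^ k + 2) (hT : 6 * T = n * (2 * n - 5)) :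
    ∃ L : Finset (Set Plane), L.card = n ∧ (∀ ℓ ∈ L, IsLine ℓ) ∧
      (T : ℕ∞) ≤ {V : Finset Plane | Counted (L : Set (Set Plane)) V}.encard := by
  obtain ⟨T', hT', ⟨L, h1, h2, -, h3⟩, -⟩ := exact k n hk hn
  have : T = T' := by omega
  subst this
  exact ⟨L, h1, h2, h3.le⟩

lemma lower14 : ∃ L : Finset (Set Plane), L.card = 14 ∧ (∀ ℓ ∈ L, IsLine ℓ) ∧
    ((54 : ℕ) : ℕ∞) ≤ {V : Finset Plane | Counted (L : Set (Set Plane)) V}.encard := by
  obtain ⟨L, hL1, hL2, 𝒯, hT1, hT2⟩ := exists_arr 1 le_rfl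
  refine ⟨L, by rw [hL1]; norm_num, hL2, ?_⟩
  have h54 : 𝒯.card = 54 := by rw [hT2]; norm_num
  rw [← h54, ← Set.encard_coe_eq_coe_finsetCard]
  exact Set.encard_le_encard (fun V hV => hT1 V (Finset.mem_coe.mp hV))

/-- for even `n`, `4 ≤ n ≤ 16`, the bound is attained -/
theorem lower_even {n : ℕ} (hn : Even n) (h4 : 4 ≤ n) (h16 : n ≤ 16) :
    ∃ L : Finset (Set Plane), L.card = n ∧ (∀ ℓ ∈ L, IsLine ℓ) ∧
      ((n * (3 * n - 7) / 9 : ℕ) : ℕ∞) ≤
        {V : Finset Plane | Counted (L : Set (Set Plane)) V}.encard := by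
  obtain ⟨x, rfl⟩ := hn
  have hx : x = 2 ∨ x = 3 ∨ x = 4 ∨ x = 5 ∨ x = 6 ∨ x = 7 ∨ x = 8 := by omega
  rcases hx with rfl | rfl | rfl | rfl | rfl | rfl | rfl
  · exact lower_pow 1 4 2 (by norm_num) (by norm_num) (by norm_num)
  · exact lower_pow 2 6 7 (by norm_num) (by norm_num) (by norm_num)
  · exact lower8
  · exact lower_pow 3 10 25 (by norm_num) (by norm_num) (by norm_num)
  · exact lower12
  · exact lower14
  · exact lower16

end Pool.Agent.Helper30.KB
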