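import Pool.Agent.Helper30.KO.Upper
import Pool.Agent.Helper23.KB.Goals

/-!
# The upper bound for lines, from the two halves
-/

namespace Pool.Agent.Helper30.KB

open Finset Helper30.KO

/-- **Upper bound for all arrangements of an even number of lines.** -/
theorem upper_of (hB : Helper23.KB.Bound) (hBr : Helper23.KB.Bridge) {n : ℕ} (hn : Even n)
    (h4 : 4 ≤ n) (L : Finset (Set Plane)) (hL : ∀ ℓ ∈ L, IsLine ℓ) (hc : L.card = n)
    (𝒯 : Finset (Finset Plane)) (h𝒯 : ∀ V ∈ 𝒯, Counted L V) :
    9 * 𝒯.card ≤ n * (3 * n - 7) := by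
  classical
  obtain ⟨s, hs1, hs2⟩ := exists_sys L hL hc
  obtain ⟨M, hM⟩ := exists_bound s
  have hex : ∀ V ∈ 𝒯, ∃ A, Good s V A := fun V hV =>
    exists_good s (L := (L : Set (Set Plane))) hs1 hs2 (h𝒯 V hV)
  choose! A hA using hex
  have hX : ∀ i j, s.m i ≠ s.m j → (s.arr M hM).X i j = s.x i j := by
    intro i j h
    simp only [Sys.arr]
    rw [if_neg h]
  have hinj : Set.InjOn A (𝒯 : Set (Finset Plane)) := by
    intro V hV W hW he
    have h1 := hA V hV
    have h2 := hA W hW
    rw [← he] at h2
    exact h1.unique h2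
  obtain ⟨K, hK⟩ := hBr n (s.arr M hM) (𝒯.image A) h4
    (by
      intro B hB
      obtain ⟨V, hV, rfl⟩ := Finset.mem_image.mp hB
      exact (hA V hV).card3)
    (by
      intro B hB i hi j hj k hk hij hik hjk
      obtain ⟨V, hV, rfl⟩ := Finset.mem_image.mp hB
      rw [hX i j ((hA V hV).pair i hi j hj hij).1, hX i k ((hA V hV).pair i hi k hk hik).1]
      exact (hA V hV).dist i hi j hj k hk hij hik hjk)
    (by
      intro B hB i hi j hj k hk hij hik hjk l hl
      obtain ⟨V, hV, rfl⟩ := Finset.mem_image.mp hB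
      rw [hX i j ((hA V hV).pair i hi j hj hij).1, hX i k ((hA V hV).pair i hi k hk hik).1]
      by_cases hm : s.m i = s.m l
      · have : (s.arr M hM).X i l = M := by
          simp only [Sys.arr]
          rw [if_pos hm]
        rw [this]
        rintro ⟨_, h2⟩
        exact lt_asymm h2 (hM i k)
      · rw [hX i l hm]
        exact (hA V hV).emp hi hj hk hij hik hm)
  have h5 := hB n K hn h4
  rw [hK, Finset.card_image_of_injOn hinj] at h5
  omega

/-- the same bound for the set of all counted triangles -/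
theorem upper_all_of (hB : Helper23.KB.Bound) (hBr : Helper23.KB.Bridge) {n : ℕ} (hn : Even n)
    (h4 : 4 ≤ n) (L : Finset (Set Plane)) (hL : ∀ ℓ ∈ L, IsLine ℓ) (hc : L.card = n) :
    {V : Finset Plane | Counted (L : Set (Set Plane)) V}.encard ≤
      ((n * (3 * n - 7) / 9 : ℕ) : ℕ∞) := by
  classical
  obtain ⟨s, hs1, hs2⟩ := exists_sys L hL hc
  have hfin : {V : Finset Plane | Counted (L : Set (Set Plane)) V}.Finite := by
    have hex : ∀ V ∈ {V : Finset Plane | Counted (L : Set (Set Plane)) V}, ∃ A, Good s V A :=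
      fun V hV => exists_good s (L := (L : Set (Set Plane))) hs1 hs2 hV
    choose! A hA using hex
    apply Set.Finite.of_finite_image (f := A) (Set.toFinite _)
    intro V hV W hW he
    have g1 := hA V hV
    have g2 := hA W hW
    rw [← he] at g2
    exact g1.unique g2
  have h1 := upper_of hB hBr hn h4 L hL hc hfin.toFinset (fun V hV => by simpa using hV)
  rw [hfin.encard_eq_coe_toFinset_card]
  have h2 : hfin.toFinset.card ≤ n * (3 * n - 7) / 9 := by
    rw [Nat.le_div_iff_mul_le (by norm_num)]
    omega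
  exact_mod_cast h2

end Pool.Agent.Helper30.KB
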