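import Pool.Agent.Helper30.KB.Adj

/-!
# Statement of the wedge lemma
-/

namespace Pool.Agent.Helper30.KB

open Helper30.KO

/-- for even `n` the wedges at the two ends of a line have different colours -/
def StWedge : Prop := ∀ (n : ℕ) (a : Arr n) (h h' s s' : HE a), 4 ≤ n → Even n →
  h.i = h'.i → h ≠ h' → h.rv = h → h'.rv = h' → h.S.card = 2 → h'.S.card = 2 →
  (s = h ∨ s.nx = h) → (s' = h' ∨ s'.nx = h') → s.rv = s → s.nx.rv = s.nx →
  s'.rv = s' → s'.nx.rv = s'.nx → s.col ≠ s'.col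

end Pool.Agent.Helper30.KB
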