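import Pool.Agent.Helper30.KB.Tri
import Pool.Agent.Helper30.KB.StW
import Pool.Agent.Helper23.KB.Goals

/-!
# The half-edge model of an arrangement
-/

namespace Pool.Agent.Helper30.KB

open Finset Helper30.KO

variable {n : ℕ} {a : Arr n}

/-- `h` is a corner of a triangle of the family -/
def IsT (T : Finset (Finset (Fin n))) (h : HE a) : Prop :=
  ∃ (i j k : Fin n) (hc : Ct a i j k), ({i, j, k} : Finset (Fin n)) ∈ T ∧
    h = EH a i j k hc.c.ne.1.symm

open Classical in
noncomputable def triB (T : Finset (Finset (Fin n))) (h : HE a) : Bool := decide (IsT T h)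

lemma triB_iff (T : Finset (Finset (Fin n))) (h : HE a) : triB T h = true ↔ IsT T h := by
  unfold triB; exact @decide_eq_true_iff _ (Classical.propDecidable _)

lemma symm_rv_EH {i j k : Fin n} (h : Ct a i j k) :
    nxE.symm (EH a i j k h.c.ne.1.symm).rv = EH a k i j h.rot.rot.c.ne.1.symm := by
  rw [Equiv.symm_apply_eq, nxE_apply, h.rv_EH]
  exact (h.rot.rot.nx_EH).symm

lemma IsT.ray {T : Finset (Finset (Fin n))} {h : HE a} (ht : IsT T h) : h.rv ≠ h := by
  obtain ⟨i, j, k, hc, _, rfl⟩ := ht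
  rw [hc.rv_EH]
  intro e
  have : (EH a i k j hc.c.ne.2.1.symm).x = (EH a i j k hc.c.ne.1.symm).x := by rw [e]
  exact hc.nx_ne this.symm

lemma IsT.face {T : Finset (Finset (Fin n))} {h : HE a} (ht : IsT T h) :
    IsT T (nxE.symm h.rv) := by
  obtain ⟨i, j, k, hc, hT, rfl⟩ := ht
  rw [symm_rv_EH hc]
  refine ⟨k, i, j, hc.rot.rot, ?_, rfl⟩
  rw [set_rot, set_rot]
  exact hT

lemma IsT.three {T : Finset (Finset (Fin n))} {h : HE a} (ht : IsT T h) :
    nxE.symm (nxE.symm (nxE.symm h.rv).rv).rv = h := by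
  obtain ⟨i, j, k, hc, _, rfl⟩ := ht
  rw [symm_rv_EH hc, symm_rv_EH hc.rot.rot, symm_rv_EH hc.rot.rot.rot.rot]

lemma cyc_unique {i j k i' j' k' : Fin n} (h : cyc i j k) (h' : cyc i' j' k')
    (e : ({i', j', k'} : Finset (Fin n)) = {i, j, k}) :
    (i' = i ∧ j' = j ∧ k' = k) ∨ (i' = j ∧ j' = k ∧ k' = i) ∨ (i' = k ∧ j' = i ∧ k' = j) := by
  have h1 : i' ∈ ({i, j, k} : Finset (Fin n)) := by rw [← e]; simp
  have h2 : j' ∈ ({i, j, k} : Finset (Fin n)) := by rw [← e]; simp
  have h3 : k' ∈ ({i, j, k} : Finset (Fin n)) := by rw [← e]; simp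
  simp only [mem_insert, mem_singleton] at h1 h2 h3
  unfold cyc at h h'
  simp only [Fin.lt_def] at h h'
  rcases h1 with rfl | rfl | rfl <;> rcases h2 with rfl | rfl | rfl <;>
    rcases h3 with rfl | rfl | rfl <;>
    first
      | exact Or.inl ⟨rfl, rfl, rfl⟩
      | exact Or.inr (Or.inl ⟨rfl, rfl, rfl⟩)
      | exact Or.inr (Or.inr ⟨rfl, rfl, rfl⟩)
      | (exfalso; omega)

/-- the triangle of a corner -/
noncomputable def trg (h : HE a) : Finset (Fin n) := {h.i, h.nx.i, (nxE.symm h.rv).i}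

lemma trg_EH {i j k : Fin n} (h : Ct a i j k) :
    trg (EH a i j k h.c.ne.1.symm) = {i, j, k} := by
  unfold trg
  rw [symm_rv_EH h, h.nx_EH]
  rfl

lemma exists_ct {A : Finset (Fin n)} (h : Emp a A) : ∃ i j k, Ct a i j k ∧ A = {i, j, k} := by
  obtain ⟨i, j, k, hij, hik, hjk, hA⟩ := Finset.card_eq_three.mp h.card3
  rcases cyc_or hij hik hjk with hc | hc
  · exact ⟨i, j, k, ⟨hc, by rw [← hA]; exact h⟩, hA⟩
  · have e : A = {j, i, k} := by
      rw [hA]; ext x; simp only [mem_insert, mem_singleton]; tauto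
    exact ⟨j, i, k, ⟨hc, by rw [← e]; exact h⟩, e⟩

lemma card_tri (T : Finset (Finset (Fin n))) (hT : ∀ A ∈ T, Emp a A) :
    (univ.filter (fun h : HE a => triB T h = true)).card = 3 * T.card := by
  classical
  rw [Finset.card_eq_sum_card_fiberwise (f := trg) (t := T)]
  · have : ∀ A ∈ T, ((univ.filter (fun h : HE a => triB T h = true)).filter
        (fun h => trg h = A)).card = 3 := by
      intro A hA
      obtain ⟨i, j, k, hc, rfl⟩ := exists_ct (hT A hA)
      have e : (univ.filter (fun h : HE a => triB T h = true)).filter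
          (fun h => trg h = {i, j, k}) = {EH a i j k hc.c.ne.1.symm,
            EH a j k i hc.rot.c.ne.1.symm, EH a k i j hc.rot.rot.c.ne.1.symm} := by
        ext h
        simp only [mem_filter, mem_univ, true_and, mem_insert, mem_singleton]
        constructor
        · rintro ⟨h1, h2⟩
          rw [triB_iff] at h1
          obtain ⟨i', j', k', hc', hT', rfl⟩ := h1
          rw [trg_EH hc'] at h2
          rcases cyc_unique hc.c hc'.c h2 with ⟨rfl, rfl, rfl⟩ | ⟨rfl, rfl, rfl⟩ | ⟨rfl, rfl, rfl⟩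
          · exact Or.inl rfl
          · exact Or.inr (Or.inl rfl)
          · exact Or.inr (Or.inr rfl)
        · rintro (rfl | rfl | rfl)
          · exact ⟨(triB_iff _ _).mpr ⟨i, j, k, hc, hA, rfl⟩, trg_EH hc⟩
          · refine ⟨(triB_iff _ _).mpr ⟨j, k, i, hc.rot, ?_, rfl⟩, ?_⟩
            · rw [set_rot]; exact hA
            · rw [trg_EH hc.rot, set_rot]
          · refine ⟨(triB_iff _ _).mpr ⟨k, i, j, hc.rot.rot, ?_, rfl⟩, ?_⟩
            · rw [set_rot, set_rot]; exact hA
            · rw [trg_EH hc.rot.rot, set_rot, set_rot]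
      rw [e]
      have n1 : EH a i j k hc.c.ne.1.symm ≠ EH a j k i hc.rot.c.ne.1.symm := by
        intro e1
        have : (EH a i j k hc.c.ne.1.symm).i = (EH a j k i hc.rot.c.ne.1.symm).i := by rw [e1]
        exact hc.c.ne.1 this
      have n2 : EH a i j k hc.c.ne.1.symm ≠ EH a k i j hc.rot.rot.c.ne.1.symm := by
        intro e1
        have : (EH a i j k hc.c.ne.1.symm).i = (EH a k i j hc.rot.rot.c.ne.1.symm).i := by
          rw [e1]
        exact hc.c.ne.2.1 this
      have n3 : EH a j k i hc.rot.c.ne.1.symm ≠ EH a k i j hc.rot.rot.c.ne.1.symm := by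
        intro e1
        have : (EH a j k i hc.rot.c.ne.1.symm).i = (EH a k i j hc.rot.rot.c.ne.1.symm).i := by
          rw [e1]
        exact hc.c.ne.2.2 this
      exact Finset.card_eq_three.mpr ⟨_, _, _, n1, n2, n3, rfl⟩
    rw [Finset.sum_congr rfl this, Finset.sum_const, smul_eq_mul, mul_comm]
  · intro h hh
    simp only [coe_filter, mem_univ, true_and, Set.mem_ofPred_eq] at hh
    rw [triB_iff] at hh
    obtain ⟨i, j, k, hc, hT', rfl⟩ := hh
    change trg _ ∈ T
    rw [trg_EH hc]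
    exact hT'

lemma S_eq_of_mem {h : HE a} {i : Fin n} (hi : i ∈ h.S) : Ls a i h.x = h.S := Ls_eq a hi

/-- the model -/
noncomputable def toKM (hn : 4 ≤ n) (a : Arr n) (T : Finset (Finset (Fin n)))
    (hW : StWedge) : Helper23.KB.KM n where
  H := HE a
  V := Finset (Fin n) × ℝ
  hV := Classical.decEq _
  nx := nxE
  rv := HE.rv
  vt h := (h.S, h.x)
  m h := h.S.card
  ln := HE.i
  ps h := (pos a h.i h.x : ℤ)
  dr := HE.b
  col := HE.col
  tri := triB T
  rv_rv := HE.rv_rv
  vt_nx h := by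
    change (h.nx.S, h.nx.x) = (h.S, h.x)
    rw [h.nx_S, h.nx_x]
  m_nx h := by
    change h.nx.S.card = h.S.card
    rw [h.nx_S]
  two_le := HE.two_le
  per h := h.per
  ln_op h := h.op_i
  dr_op h := h.op_b
  ln_ne h k h0 hk := h.i_ne k h0 hk
  ln_rv := HE.rv_i
  dr_rv h hr := h.rv_b hr
  ps_rv h hr := by
    obtain ⟨y, hy⟩ := nxt_of_ne hr
    rw [rv_of hy]
    exact pos_nxt' h.hx hy
  ps_vt h h' h1 h2 := by
    have : h.x = h'.x := congrArg Prod.snd h2
    rw [h1, this]
  inj h h' h1 h2 h3 := by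
    have h4 : pos a h.i h.x = pos a h'.i h'.x := by exact_mod_cast h2
    rw [h1] at h4
    have hx : h.x ∈ vals a h'.i := by rw [← h1]; exact h.hx
    exact HE.ext' h1 (pos_inj hx h'.hx h4) h3
  meet p q p' q' h1 h2 h3 h4 h5 := by
    have e1 : p.S = q.S := congrArg Prod.fst h1
    have e2 : p'.S = q'.S := congrArg Prod.fst h2
    have x1 : a.X p.i q.i = p.x := by
      have hq : q.i ∈ p.S := by rw [e1]; exact q.i_mem
      exact X_of_mem a p.i_mem hq h5
    have x2 : a.X p'.i q'.i = p'.x := by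
      have hq : q'.i ∈ p'.S := by rw [e2]; exact q'.i_mem
      exact X_of_mem a p'.i_mem hq (by rw [← h3, ← h4]; exact h5)
    have x3 : p.x = p'.x := by rw [← x1, ← x2, h3, h4]
    have x4 : p.S = p'.S := by
      unfold HE.S
      rw [h3, x3]
    rw [x3, x4]
  ray i d := exists_ray (by omega) i d
  line_sum i d := line_sum i d
  tri_ray h ht := ((triB_iff T h).mp ht).ray
  tri_face h ht := (triB_iff T _).mpr ((triB_iff T h).mp ht).face
  tri_three h ht := ((triB_iff T h).mp ht).three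
  col_nx := col_nx
  col_rv h hr := by
    have h1 : (nxE.symm h.rv).nx = h.rv := nxE.apply_symm_apply _
    have h2 := col_nx (nxE.symm h.rv)
    rw [h1, Helper30.KB.col_rv h hr] at h2
    have h3 : (nxE.symm h.rv).col = h.col := by
      revert h2
      rcases h.col with _ | _ <;> rcases (nxE.symm h.rv).col with _ | _ <;> simp
    exact h3
  wedge he h h' h1 h2 h3 h4 h5 h6 s s' h7 h8 h9 h10 h11 h12 := by
    refine hW n a h h' s s' hn he h1 h2 h3 h4 h5 h6 ?_ ?_ h9 h10 h11 h12
    · rcases h7 with h7 | h7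
      · exact Or.inl h7
      · right
        rw [h7]
        exact nxE.apply_symm_apply _
    · rcases h8 with h8 | h8
      · exact Or.inl h8
      · right
        rw [h8]
        exact nxE.apply_symm_apply _

theorem bridge (hW : StWedge) : Helper23.KB.Bridge := by
  intro n a T hn h1 h2 h3
  refine ⟨toKM hn a T hW, ?_⟩
  exact card_tri T (fun A hA => ⟨h1 A hA, h2 A hA, h3 A hA⟩)

end Pool.Agent.Helper30.KB
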