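import Pool.Agent.Helper30.KB.Row

/-!
# Reversing half-edges, positions
-/

namespace Pool.Agent.Helper30.KB

open Finset Helper30.KO

variable {n : ℕ} {a : Arr n}

variable (a) in
/-- `y` is the next vertex after `x` on line `i` in direction `d` -/
def Nxt (i : Fin n) (x : ℝ) (d : Bool) (y : ℝ) : Prop :=
  y ∈ vals a i ∧ dl d x y ∧ ∀ z ∈ vals a i, dl d x z → ¬ dl d z y

lemma exists_nxt {i : Fin n} {x : ℝ} {d : Bool} (h : ∃ y ∈ vals a i, dl d x y) :
    ∃ y, Nxt a i x d y := by
  classical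
  obtain ⟨y0, hy0, hd0⟩ := h
  have hne : ((vals a i).filter (fun y => dl d x y)).Nonempty := ⟨y0, by simp [hy0, hd0]⟩
  cases d
  · obtain ⟨y, hy, hmax⟩ := Finset.exists_max_image _ (fun y : ℝ => y) hne
    rw [mem_filter] at hy
    refine ⟨y, hy.1, hy.2, fun z hz hxz hzy => ?_⟩
    have := hmax z (by rw [mem_filter]; exact ⟨hz, hxz⟩)
    rw [dl_false] at hzy
    linarith
  · obtain ⟨y, hy, hmin⟩ := Finset.exists_min_image _ (fun y : ℝ => y) hne
    rw [mem_filter] at hy
    refine ⟨y, hy.1, hy.2, fun z hz hxz hzy => ?_⟩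
    have := hmin z (by rw [mem_filter]; exact ⟨hz, hxz⟩)
    rw [dl_true] at hzy
    linarith

lemma Nxt.unique {i : Fin n} {x : ℝ} {d : Bool} {y y' : ℝ} (h : Nxt a i x d y)
    (h' : Nxt a i x d y') : y = y' := by
  by_contra hne
  rcases dl_trichotomy d hne with h1 | h1
  · exact h'.2.2 y h.1 h.2.1 h1
  · rw [dl_not] at h1
    exact h.2.2 y' h'.1 h'.2.1 h1

lemma Nxt.symm {i : Fin n} {x : ℝ} {d : Bool} {y : ℝ} (hx : x ∈ vals a i) (h : Nxt a i x d y) :
    Nxt a i y (!d) x := by
  refine ⟨hx, (dl_not d _ _).mpr h.2.1, fun z hz h1 h2 => ?_⟩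
  rw [dl_not] at h1 h2
  exact h.2.2 z hz h2 h1

open Classical in
/-- the other half -/
noncomputable def HE.rv (h : HE a) : HE a :=
  if hy : ∃ y, Nxt a h.i h.x h.b y then mkH h.i hy.choose (!h.b) hy.choose_spec.1 else h

lemma rv_of {h : HE a} {y : ℝ} (hy : Nxt a h.i h.x h.b y) :
    h.rv = mkH h.i y (!h.b) hy.1 := by
  have hex : ∃ y, Nxt a h.i h.x h.b y := ⟨y, hy⟩
  unfold HE.rv
  rw [dif_pos hex]
  apply HE.ext'
  · rfl
  · exact (hex.choose_spec).unique hy
  · rfl

lemma rv_none {h : HE a} (hn : ¬ ∃ y, Nxt a h.i h.x h.b y) : h.rv = h := by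
  unfold HE.rv
  rw [dif_neg hn]

lemma rv_ray {h : HE a} (hn : ∀ z ∈ vals a h.i, ¬ dl h.b h.x z) : h.rv = h := by
  apply rv_none
  rintro ⟨y, hy⟩
  exact hn y hy.1 hy.2.1

lemma ray_of_rv {h : HE a} (hr : h.rv = h) : ∀ z ∈ vals a h.i, ¬ dl h.b h.x z := by
  intro z hz hd
  obtain ⟨y, hy⟩ := exists_nxt ⟨z, hz, hd⟩
  have h1 := rv_of hy
  rw [hr] at h1
  have h2 : h.x = y := by
    conv_lhs => rw [h1]
    rfl
  exact dl_ne hy.2.1 h2

lemma nxt_of_ne {h : HE a} (hr : h.rv ≠ h) : ∃ y, Nxt a h.i h.x h.b y := by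
  by_contra hn
  exact hr (rv_none hn)

lemma HE.rv_rv (h : HE a) : h.rv.rv = h := by
  by_cases hn : ∃ y, Nxt a h.i h.x h.b y
  · obtain ⟨y, hy⟩ := hn
    rw [rv_of hy]
    have h1 := hy.symm h.hx
    rw [rv_of (h := mkH h.i y (!h.b) hy.1) (y := h.x) h1]
    apply HE.ext'
    · rfl
    · rfl
    · simp
  · rw [rv_none hn, rv_none hn]

lemma HE.rv_i (h : HE a) : h.rv.i = h.i := by
  by_cases hn : ∃ y, Nxt a h.i h.x h.b y
  · obtain ⟨y, hy⟩ := hn
    rw [rv_of hy]; rfl
  · rw [rv_none hn]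

lemma HE.rv_b (h : HE a) (hr : h.rv ≠ h) : h.rv.b = !h.b := by
  obtain ⟨y, hy⟩ := nxt_of_ne hr
  rw [rv_of hy]; rfl

/-- position on the line -/
noncomputable def pos (a : Arr n) (i : Fin n) (x : ℝ) : ℕ := ((vals a i).filter (· < x)).card

lemma pos_nxt {i : Fin n} {x y : ℝ} (hx : x ∈ vals a i) (h : Nxt a i x true y) :
    pos a i y = pos a i x + 1 := by
  unfold pos
  have hxy : x < y := (dl_true _ _).mp h.2.1
  have h1 : (vals a i).filter (· < y) = insert x ((vals a i).filter (· < x)) := by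
    ext z
    simp only [mem_filter, mem_insert]
    constructor
    · rintro ⟨hz, hzy⟩
      by_cases hzx : z = x
      · exact Or.inl hzx
      · right
        refine ⟨hz, ?_⟩
        by_contra hc
        have hxz : x < z := lt_of_le_of_ne (not_lt.mp hc) (Ne.symm hzx)
        exact h.2.2 z hz ((dl_true _ _).mpr hxz) ((dl_true _ _).mpr hzy)
    · rintro (rfl | ⟨hz, hzx⟩)
      · exact ⟨hx, hxy⟩
      · exact ⟨hz, hzx.trans hxy⟩
  rw [h1, Finset.card_insert_of_notMem (by simp)]

lemma pos_nxt' {i : Fin n} {x y : ℝ} {d : Bool} (hx : x ∈ vals a i) (h : Nxt a i x d y) :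
    (pos a i y : ℤ) = pos a i x + (if d then 1 else -1) := by
  cases d
  · have h1 : Nxt a i y true x := h.symm hx
    have := pos_nxt h.1 h1
    simp only [Bool.false_eq_true, if_false]
    omega
  · have := pos_nxt hx h
    simp only [if_true]
    omega

lemma pos_inj {i : Fin n} {x y : ℝ} (hx : x ∈ vals a i) (hy : y ∈ vals a i)
    (h : pos a i x = pos a i y) : x = y := by
  have key : ∀ u v : ℝ, u ∈ vals a i → u < v → pos a i u < pos a i v := by
    intro u v hu huv
    unfold pos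
    apply Finset.card_lt_card
    refine ⟨?_, ?_⟩
    · intro z hz
      simp only [mem_filter] at hz ⊢
      exact ⟨hz.1, hz.2.trans huv⟩
    · intro hsub
      have := hsub (show u ∈ (vals a i).filter (· < v) by simp [hu, huv])
      simp at this
  rcases lt_trichotomy x y with h1 | h1 | h1
  · have := key x y hx h1; omega
  · exact h1
  · have := key y x hy h1; omega

lemma vals_nonempty (hn : 2 ≤ n) (i : Fin n) : (vals a i).Nonempty := by
  have : Nontrivial (Fin n) := Fin.nontrivial_iff_two_le.mpr hn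
  obtain ⟨j, hj⟩ := exists_ne i
  exact ⟨_, X_mem_vals a hj⟩

lemma exists_ray (hn : 2 ≤ n) (i : Fin n) (d : Bool) :
    ∃! h : HE a, h.i = i ∧ h.b = d ∧ h.rv = h := by
  classical
  have hex : ∃ x ∈ vals a i, ∀ z ∈ vals a i, ¬ dl d x z := by
    cases d
    · obtain ⟨x, hx, hmin⟩ := Finset.exists_min_image _ (fun y : ℝ => y)
        (vals_nonempty (a := a) hn i)
      exact ⟨x, hx, fun z hz => by rw [dl_false, not_lt]; exact hmin z hz⟩
    · obtain ⟨x, hx, hmax⟩ := Finset.exists_max_image _ (fun y : ℝ => y)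
        (vals_nonempty (a := a) hn i)
      exact ⟨x, hx, fun z hz => by rw [dl_true, not_lt]; exact hmax z hz⟩
  obtain ⟨x, hx, hmax⟩ := hex
  refine ⟨mkH i x d hx, ⟨rfl, rfl, rv_ray hmax⟩, ?_⟩
  rintro h ⟨h1, h2, h3⟩
  have h4 := ray_of_rv h3
  rw [h1, h2] at h4
  have hx' : h.x ∈ vals a i := by rw [← h1]; exact h.hx
  apply HE.ext'
  · exact h1
  · by_contra hne
    rcases dl_trichotomy d hne with h5 | h5
    · exact h4 x hx h5
    · rw [dl_not] at h5
      exact hmax _ hx' h5
  · exact h2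

/-- the number of lines crossing line `i` at `x` -/
lemma card_Ls {i : Fin n} {x : ℝ} :
    (Ls a i x).card = (univ.filter (fun k => k ≠ i ∧ a.X i k = x)).card + 1 := by
  classical
  have : Ls a i x = insert i (univ.filter (fun k => k ≠ i ∧ a.X i k = x)) := by
    ext k
    rw [mem_Ls]
    simp only [mem_insert, mem_filter, mem_univ, true_and]
    by_cases h : k = i
    · simp [h]
    · simp [h]
  rw [this, Finset.card_insert_of_notMem (by simp)]

lemma line_sum (i : Fin n) (d : Bool) :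
    ∑ h : HE a with (h.i = i ∧ h.b = d), ((h.S.card : ℤ) - 1) = (n : ℤ) - 1 := by
  classical
  have h1 : ∑ h : HE a with (h.i = i ∧ h.b = d), ((h.S.card : ℤ) - 1) =
      ∑ x ∈ vals a i, (((univ.filter (fun k => k ≠ i)).filter
        (fun k => a.X i k = x)).card : ℤ) := by
    refine Finset.sum_bij' (fun h _ => h.x)
      (fun x hx => mkH i x d hx) ?_ ?_ ?_ ?_ ?_
    · intro h hh
      simp only [mem_filter, mem_univ, true_and] at hh
      rw [← hh.1]; exact h.hx
    · intro x hx
      simp only [mem_filter, mem_univ, true_and]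
      exact ⟨rfl, rfl⟩
    · intro h hh
      simp only [mem_filter, mem_univ, true_and] at hh
      exact HE.ext' hh.1.symm rfl hh.2.symm
    · intro x hx
      rfl
    · intro h hh
      simp only [mem_filter, mem_univ, true_and] at hh
      have : h.S.card = (univ.filter (fun k => k ≠ i ∧ a.X i k = h.x)).card + 1 := by
        unfold HE.S
        rw [card_Ls, hh.1]
      rw [this, Finset.filter_filter]
      push_cast
      ring
  rw [h1]
  have h2 := Finset.card_eq_sum_card_image (fun k => a.X i k) (univ.filter (fun k => k ≠ i))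
  have h3 : (univ.filter (fun k : Fin n => k ≠ i)).card = n - 1 := by
    rw [Finset.filter_ne', Finset.card_erase_of_mem (mem_univ _), Finset.card_univ,
      Fintype.card_fin]
  have hn : 1 ≤ n := by have := i.2; omega
  have h4 : ((univ.filter (fun k : Fin n => k ≠ i)).card : ℤ) = (n : ℤ) - 1 := by
    rw [h3]; omega
  rw [← h4, h2]
  push_cast
  rfl

end Pool.Agent.Helper30.KB
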