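import Mathlib

/-!
# The cyclic order of the half-edges at a vertex

The lines through a vertex are the elements of a finset `S` of `Fin n`, ordered by slope.
Half-edges are numbered `0, …, 2 m - 1` counterclockwise, the first `m` go to the right.
-/

namespace Pool.Agent.Helper30.KB

open Finset

variable {n : ℕ}

/-- rank of `i` in `S` -/
def rk (S : Finset (Fin n)) (i : Fin n) : ℕ := (S.filter (· < i)).card

/-- cyclic enumeration of `S` -/
noncomputable def el (S : Finset (Fin n)) (hS : S.Nonempty) (t : ℕ) : Fin n :=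
  S.orderEmbOfFin rfl ⟨t % S.card, Nat.mod_lt _ hS.card_pos⟩

lemma el_mem (S : Finset (Fin n)) (hS : S.Nonempty) (t : ℕ) : el S hS t ∈ S :=
  Finset.orderEmbOfFin_mem _ _ _

lemma rk_el (S : Finset (Fin n)) (hS : S.Nonempty) (t : ℕ) : rk S (el S hS t) = t % S.card := by
  unfold rk el
  set f := S.orderEmbOfFin rfl with hf
  have h1 : S.filter (· < f ⟨t % S.card, Nat.mod_lt _ hS.card_pos⟩) =
      (Finset.Iio (⟨t % S.card, Nat.mod_lt _ hS.card_pos⟩ : Fin S.card)).image f := by
    ext k
    simp only [mem_filter, mem_image, mem_Iio]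
    constructor
    · rintro ⟨hk, hk2⟩
      have : k ∈ Set.range f := by
        rw [hf, Finset.range_orderEmbOfFin]; exact hk
      obtain ⟨u, rfl⟩ := this
      exact ⟨u, (f.lt_iff_lt).mp hk2, rfl⟩
    · rintro ⟨u, hu, rfl⟩
      exact ⟨Finset.orderEmbOfFin_mem _ _ _, (f.lt_iff_lt).mpr hu⟩
  rw [h1, Finset.card_image_of_injective _ f.injective, Fin.card_Iio]

lemma rk_lt (S : Finset (Fin n)) {i : Fin n} (hi : i ∈ S) : rk S i < S.card := by
  unfold rk
  apply Finset.card_lt_card
  rw [Finset.filter_ssubset]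
  exact ⟨i, hi, lt_irrefl i⟩

lemma rk_inj (S : Finset (Fin n)) {i j : Fin n} (hi : i ∈ S) (hj : j ∈ S)
    (h : rk S i = rk S j) : i = j := by
  by_contra hne
  rcases lt_or_gt_of_ne hne with h1 | h1
  · have : rk S i < rk S j := by
      unfold rk
      apply Finset.card_lt_card
      refine ⟨?_, ?_⟩
      · intro k hk
        simp only [mem_filter] at hk ⊢
        exact ⟨hk.1, hk.2.trans h1⟩
      · intro hsub
        have := hsub (show i ∈ S.filter (· < j) by simp [hi, h1])
        simp at this
    omega
  · have : rk S j < rk S i := by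
      unfold rk
      apply Finset.card_lt_card
      refine ⟨?_, ?_⟩
      · intro k hk
        simp only [mem_filter] at hk ⊢
        exact ⟨hk.1, hk.2.trans h1⟩
      · intro hsub
        have := hsub (show j ∈ S.filter (· < i) by simp [hj, h1])
        simp at this
    omega

lemma el_rk (S : Finset (Fin n)) (hS : S.Nonempty) {i : Fin n} (hi : i ∈ S) {t : ℕ}
    (ht : t % S.card = rk S i) : el S hS t = i :=
  rk_inj S (el_mem S hS t) hi (by rw [rk_el, ht])

/-- direction of the `t`-th half-edge at a vertex with `m` lines -/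
def dirAt (m t : ℕ) : Bool := decide ((t / m) % 2 = 0)

/-- number of the half-edge of line `i` in direction `b` -/
def idx (S : Finset (Fin n)) (i : Fin n) (b : Bool) : ℕ := rk S i + if b then 0 else S.card

lemma idx_mod (S : Finset (Fin n)) {i : Fin n} (hi : i ∈ S) (b : Bool) :
    idx S i b % S.card = rk S i := by
  have h := rk_lt S hi
  unfold idx
  cases b
  · simp [Nat.mod_eq_of_lt h]
  · simp [Nat.mod_eq_of_lt h]

lemma idx_lt (S : Finset (Fin n)) {i : Fin n} (hi : i ∈ S) (b : Bool) :
    idx S i b < 2 * S.card := by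
  have h := rk_lt S hi
  unfold idx
  cases b
  · simp; omega
  · simp; omega

lemma dirAt_idx (S : Finset (Fin n)) {i : Fin n} (hi : i ∈ S) (b : Bool) :
    dirAt S.card (idx S i b) = b := by
  have h := rk_lt S hi
  have h0 : 0 < S.card := by omega
  unfold idx dirAt
  cases b
  · simp only [Bool.false_eq_true, if_false]
    rw [Nat.add_div_right _ h0, Nat.div_eq_of_lt h]
    simp
  · simp only [if_true, add_zero]
    rw [Nat.div_eq_of_lt h]
    simp

lemma mod_two_mul (m t : ℕ) (hm : 0 < m) :
    t % (2 * m) = t % m + if (t / m) % 2 = 0 then 0 else m := by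
  have h1 := Nat.div_add_mod t m
  have h2 := Nat.div_add_mod (t / m) 2
  have h3 : t % m < m := Nat.mod_lt _ hm
  have e : t = (2 * m) * (t / m / 2) + (t % m + (t / m % 2) * m) := by
    calc t = m * (t / m) + t % m := h1.symm
      _ = m * (2 * (t / m / 2) + t / m % 2) + t % m := by rw [h2]
      _ = _ := by ring
  rcases Nat.mod_two_eq_zero_or_one (t / m) with h | h
  · rw [if_pos h]
    rw [h] at e
    conv_lhs => rw [e]
    rw [Nat.mul_add_mod, zero_mul, add_zero]
    apply Nat.mod_eq_of_lt
    omega
  · rw [if_neg (by omega)]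
    rw [h] at e
    conv_lhs => rw [e]
    rw [Nat.mul_add_mod, one_mul]
    apply Nat.mod_eq_of_lt
    omega

/-- the numbering is inverse to the enumeration -/
lemma idx_el (S : Finset (Fin n)) (hS : S.Nonempty) (t : ℕ) :
    idx S (el S hS t) (dirAt S.card t) = t % (2 * S.card) := by
  rw [mod_two_mul _ _ hS.card_pos]
  unfold idx
  rw [rk_el]
  congr 1
  unfold dirAt
  by_cases h : (t / S.card) % 2 = 0
  · simp [h]
  · simp [h]

lemma el_congr (S : Finset (Fin n)) (hS : S.Nonempty) {s t : ℕ}
    (h : s % (2 * S.card) = t % (2 * S.card)) : el S hS s = el S hS t := by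
  apply el_rk S hS (el_mem S hS t)
  rw [rk_el]
  have h1 : s % S.card = (s % (2 * S.card)) % S.card := by
    rw [Nat.mod_mul_left_mod]
  have h2 : t % S.card = (t % (2 * S.card)) % S.card := by
    rw [Nat.mod_mul_left_mod]
  rw [h1, h2, h]

lemma dirAt_congr {m s t : ℕ} (h : s % (2 * m) = t % (2 * m)) :
    dirAt m s = dirAt m t := by
  have key : ∀ u, dirAt m u = dirAt m (u % (2 * m)) := by
    intro u
    unfold dirAt
    have h1 : u % (2 * m) / m = u / m % 2 := by
      rw [mul_comm, Nat.mod_mul_right_div_self]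
    rw [h1, Nat.mod_mod]
  rw [key s, key t, h]

lemma add_mod_congr {M s t k : ℕ} (h : s % M = t % M) : (s + k) % M = (t + k) % M := by
  rw [Nat.add_mod, h, ← Nat.add_mod]

end Pool.Agent.Helper30.KB
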