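import Pool.Agent.Helper30.KB.Ring
import Pool.Agent.Helper30.KO.Core

/-!
# The vertices on a line
-/

namespace Pool.Agent.Helper30.KB

open Finset Helper30.KO

variable {n : ℕ} (a : Arr n)

/-- abscissae of the vertices of line `i` -/
noncomputable def vals (i : Fin n) : Finset ℝ :=
  (univ.filter (fun k => k ≠ i)).image (fun k => a.X i k)

lemma mem_vals {i : Fin n} {x : ℝ} : x ∈ vals a i ↔ ∃ k, k ≠ i ∧ a.X i k = x := by
  simp [vals]

lemma X_mem_vals {i k : Fin n} (h : k ≠ i) : a.X i k ∈ vals a i :=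
  (mem_vals a).mpr ⟨k, h, rfl⟩

open Classical in
/-- the lines through the vertex of line `i` at abscissa `x` -/
noncomputable def Ls (i : Fin n) (x : ℝ) : Finset (Fin n) :=
  univ.filter (fun k => k = i ∨ a.X i k = x)

lemma mem_Ls {i k : Fin n} {x : ℝ} : k ∈ Ls a i x ↔ k = i ∨ a.X i k = x := by
  simp [Ls]

lemma self_mem_Ls (i : Fin n) (x : ℝ) : i ∈ Ls a i x := (mem_Ls a).mpr (Or.inl rfl)

lemma Ls_nonempty (i : Fin n) (x : ℝ) : (Ls a i x).Nonempty := ⟨i, self_mem_Ls a i x⟩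

lemma vals_of_mem {i j : Fin n} {x : ℝ} (hx : x ∈ vals a i) (hj : j ∈ Ls a i x) :
    x ∈ vals a j := by
  by_cases hji : j = i
  · rw [hji]; exact hx
  · have h1 : a.X i j = x := by
      rcases (mem_Ls a).mp hj with h | h
      · exact absurd h hji
      · exact h
    exact (mem_vals a).mpr ⟨i, Ne.symm hji, by rw [a.sym, h1]⟩

lemma Ls_eq {i j : Fin n} {x : ℝ} (hj : j ∈ Ls a i x) :
    Ls a j x = Ls a i x := by
  by_cases hji : j = i
  · rw [hji]
  have h1 : a.X i j = x := by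
    rcases (mem_Ls a).mp hj with h | h
    · exact absurd h hji
    · exact h
  have h2 : a.X j i = x := by rw [a.sym, h1]
  ext k
  rw [mem_Ls, mem_Ls]
  by_cases hki : k = i
  · simp [hki, h2]
  by_cases hkj : k = j
  · simp [hkj, h1]
  simp only [hki, hkj, false_or]
  constructor
  · intro h
    have := tie (a := a) (i := j) (j := i) (l := k) hji (Ne.symm hkj) (Ne.symm hki)
      (by rw [h, h2])
    rw [this, h2]
  · intro h
    have := tie (a := a) (i := i) (j := j) (l := k) (Ne.symm hji) (Ne.symm hki) (Ne.symm hkj)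
      (by rw [h, h1])
    rw [this, h1]

lemma two_le_Ls {i : Fin n} {x : ℝ} (hx : x ∈ vals a i) : 2 ≤ (Ls a i x).card := by
  obtain ⟨k, hk, hkx⟩ := (mem_vals a).mp hx
  have h1 : ({i, k} : Finset (Fin n)) ⊆ Ls a i x := by
    intro l hl
    simp only [mem_insert, mem_singleton] at hl
    rcases hl with rfl | rfl
    · exact self_mem_Ls a _ _
    · exact (mem_Ls a).mpr (Or.inr hkx)
  have h2 := Finset.card_le_card h1
  rwa [Finset.card_pair (Ne.symm hk)] at h2

/-- two lines at a vertex cross there -/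
lemma X_of_mem {i j k : Fin n} {x : ℝ} (hj : j ∈ Ls a i x) (hk : k ∈ Ls a i x) (hjk : j ≠ k) :
    a.X j k = x := by
  rw [← Ls_eq a hj] at hk
  rcases (mem_Ls a).mp hk with h | h
  · exact absurd h.symm hjk
  · exact h

/-- half-edges -/
def HE : Type := {h : Fin n × ℝ × Bool // h.2.1 ∈ vals a h.1}

noncomputable instance : Fintype (HE a) := by
  classical
  have : Finite (HE a) := by
    have hf : {h : Fin n × ℝ × Bool | h.2.1 ∈ vals a h.1}.Finite := by
      apply Set.Finite.subset (Set.finite_range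
        (fun p : Fin n × Fin n × Bool => (p.1, a.X p.1 p.2.1, p.2.2)))
      rintro ⟨i, x, b⟩ h
      obtain ⟨k, _, hk⟩ := (mem_vals a).mp h
      exact ⟨(i, k, b), by simp [hk]⟩
    exact hf.to_subtype
  exact Fintype.ofFinite _

noncomputable instance : DecidableEq (HE a) := Classical.decEq _

variable {a}

/-- line -/
def HE.i (h : HE a) : Fin n := h.1.1
/-- abscissa -/
def HE.x (h : HE a) : ℝ := h.1.2.1
/-- direction -/
def HE.b (h : HE a) : Bool := h.1.2.2
/-- lines at the vertex -/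
noncomputable def HE.S (h : HE a) : Finset (Fin n) := Ls a h.i h.x

lemma HE.hx (h : HE a) : h.x ∈ vals a h.i := h.2

lemma HE.ext' {h k : HE a} (h1 : h.i = k.i) (h2 : h.x = k.x) (h3 : h.b = k.b) : h = k := by
  apply Subtype.ext
  exact Prod.ext h1 (Prod.ext h2 h3)

/-- constructor -/
def mkH (i : Fin n) (x : ℝ) (b : Bool) (hx : x ∈ vals a i) : HE a := ⟨(i, x, b), hx⟩

@[simp] lemma mkH_i {i : Fin n} {x : ℝ} {b : Bool} (hx : x ∈ vals a i) :
    (mkH i x b hx).i = i := rfl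
@[simp] lemma mkH_x {i : Fin n} {x : ℝ} {b : Bool} (hx : x ∈ vals a i) :
    (mkH i x b hx).x = x := rfl
@[simp] lemma mkH_b {i : Fin n} {x : ℝ} {b : Bool} (hx : x ∈ vals a i) :
    (mkH i x b hx).b = b := rfl

lemma HE.i_mem (h : HE a) : h.i ∈ h.S := self_mem_Ls a _ _
lemma HE.S_ne (h : HE a) : h.S.Nonempty := ⟨_, h.i_mem⟩
lemma HE.two_le (h : HE a) : 2 ≤ h.S.card := two_le_Ls a h.hx

lemma HE.el_vals (h : HE a) (t : ℕ) : h.x ∈ vals a (el h.S h.S_ne t) :=
  vals_of_mem a h.hx (el_mem _ _ _)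

/-- the half-edge number `t` at the vertex of `h` -/
noncomputable def HE.nth (h : HE a) (t : ℕ) : HE a :=
  mkH (el h.S h.S_ne t) h.x (dirAt h.S.card t) (h.el_vals t)

/-- the number of `h` -/
noncomputable def HE.ix (h : HE a) : ℕ := idx h.S h.i h.b

@[simp] lemma HE.nth_i (h : HE a) (t : ℕ) : (h.nth t).i = el h.S h.S_ne t := rfl
@[simp] lemma HE.nth_x (h : HE a) (t : ℕ) : (h.nth t).x = h.x := rfl
@[simp] lemma HE.nth_b (h : HE a) (t : ℕ) : (h.nth t).b = dirAt h.S.card t := rfl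

lemma HE.nth_S (h : HE a) (t : ℕ) : (h.nth t).S = h.S := by
  unfold HE.S
  rw [HE.nth_i, HE.nth_x]
  exact Ls_eq a (el_mem _ _ _)

lemma HE.S_eq_of {h k : HE a} (hx : h.x = k.x) (hi : k.i ∈ h.S) : k.S = h.S := by
  unfold HE.S at *
  rw [← hx]
  exact Ls_eq a hi

lemma el_eq_of {S T : Finset (Fin n)} (hS : S.Nonempty) (hT : T.Nonempty) (h : S = T) (t : ℕ) :
    el S hS t = el T hT t := by
  subst h; rfl

lemma HE.nth_ix (h : HE a) : h.nth h.ix = h := by
  apply HE.ext'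
  · rw [HE.nth_i]
    exact el_rk _ _ h.i_mem (idx_mod _ h.i_mem _)
  · rfl
  · rw [HE.nth_b]; exact dirAt_idx _ h.i_mem _

lemma HE.ix_nth (h : HE a) (t : ℕ) : (h.nth t).ix = t % (2 * h.S.card) := by
  unfold HE.ix
  rw [HE.nth_S, HE.nth_i, HE.nth_b]
  exact idx_el _ _ _

lemma HE.nth_congr (h : HE a) {s t : ℕ} (e : s % (2 * h.S.card) = t % (2 * h.S.card)) :
    h.nth s = h.nth t := by
  apply HE.ext'
  · exact el_congr _ h.S_ne e
  · rfl
  · exact dirAt_congr e

lemma HE.nth_at (h : HE a) (s t : ℕ) : (h.nth s).nth t = h.nth t := by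
  apply HE.ext'
  · rw [HE.nth_i, HE.nth_i]
    exact el_eq_of _ _ (h.nth_S s) t
  · rfl
  · rw [HE.nth_b, HE.nth_b, HE.nth_S]

/-- next half-edge -/
noncomputable def HE.nx (h : HE a) : HE a := h.nth (h.ix + 1)

lemma HE.nx_nth (h : HE a) (t : ℕ) : (h.nth t).nx = h.nth (t + 1) := by
  unfold HE.nx
  rw [HE.nth_at, HE.ix_nth]
  apply HE.nth_congr
  apply add_mod_congr
  exact Nat.mod_mod _ _

lemma HE.nx_iter (h : HE a) (k : ℕ) : (HE.nx^[k]) h = h.nth (h.ix + k) := by
  induction k with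
  | zero => rw [Function.iterate_zero, id, add_zero, HE.nth_ix]
  | succ k ih => rw [Function.iterate_succ_apply', ih, HE.nx_nth, add_assoc]

lemma HE.per (h : HE a) : (HE.nx^[2 * h.S.card]) h = h := by
  rw [HE.nx_iter]
  conv_rhs => rw [← h.nth_ix]
  apply HE.nth_congr
  simp

lemma HE.nx_S (h : HE a) : h.nx.S = h.S := h.nth_S _

lemma HE.nx_x (h : HE a) : h.nx.x = h.x := rfl

lemma HE.iter_S (h : HE a) (k : ℕ) : ((HE.nx^[k]) h).S = h.S := by
  rw [HE.nx_iter]; exact h.nth_S _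

lemma HE.nx_inj : Function.Injective (HE.nx : HE a → HE a) := by
  intro h k e
  have hS : h.S = k.S := by rw [← h.nx_S, ← k.nx_S, e]
  have h1 := h.per
  have h2 := k.per
  have hc := h.two_le
  obtain ⟨c, hc2⟩ : ∃ c, 2 * h.S.card = c + 1 := ⟨2 * h.S.card - 1, by omega⟩
  rw [← hS] at h2
  rw [hc2, Function.iterate_succ_apply] at h1 h2
  rw [← h1, ← h2, e]

/-- the rotation -/
noncomputable def nxE : Equiv.Perm (HE a) :=
  Equiv.ofBijective HE.nx ((Finite.injective_iff_bijective).mp HE.nx_inj)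

@[simp] lemma nxE_apply (h : HE a) : nxE h = h.nx := rfl

lemma nxE_coe : (nxE : HE a → HE a) = HE.nx := rfl

lemma HE.op_i (h : HE a) : ((HE.nx^[h.S.card]) h).i = h.i := by
  rw [HE.nx_iter, HE.nth_i]
  apply el_rk _ _ h.i_mem
  rw [Nat.add_mod_right]
  exact idx_mod _ h.i_mem _

lemma HE.op_b (h : HE a) : ((HE.nx^[h.S.card]) h).b = !h.b := by
  rw [HE.nx_iter, HE.nth_b]
  have h1 : dirAt h.S.card h.ix = h.b := dirAt_idx _ h.i_mem _
  rw [← h1]
  unfold dirAt
  have h0 : 0 < h.S.card := by have := h.two_le; omega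
  rw [Nat.add_div_right _ h0]
  rcases Nat.mod_two_eq_zero_or_one (h.ix / h.S.card) with h2 | h2
  · have : (h.ix / h.S.card + 1) % 2 = 1 := by omega
    simp [h2, this]
  · have : (h.ix / h.S.card + 1) % 2 = 0 := by omega
    simp [h2, this]

lemma HE.i_ne (h : HE a) (k : ℕ) (h0 : 0 < k) (hk : k < h.S.card) :
    ((HE.nx^[k]) h).i ≠ h.i := by
  rw [HE.nx_iter, HE.nth_i]
  intro e
  have h1 := rk_el h.S h.S_ne (h.ix + k)
  rw [e] at h1
  have h2 : h.ix % h.S.card = rk h.S h.i := idx_mod _ h.i_mem _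
  rw [← h2] at h1
  have h3 : (h.ix + k) % h.S.card = (h.ix % h.S.card + k) % h.S.card := by
    rw [Nat.mod_add_mod]
  rw [h3] at h1
  have h4 : h.ix % h.S.card < h.S.card := Nat.mod_lt _ (by omega)
  set r := h.ix % h.S.card
  by_cases h5 : r + k < h.S.card
  · rw [Nat.mod_eq_of_lt h5] at h1; omega
  · have : (r + k) % h.S.card = r + k - h.S.card := by
      rw [Nat.mod_eq_sub_mod (by omega), Nat.mod_eq_of_lt (by omega)]
    rw [this] at h1; omega

end Pool.Agent.Helper30.KB
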