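import Pool.Agent.Helper30.KB.Model
import Pool.Agent.Helper30.KB.Line
import Pool.Agent.Helper23.KB.Bnd
import Pool.Agent.Helper31.KBC.Wedge

/-!
# The upper bound for all arrangements of an even number of lines
-/

namespace Pool.Agent.Helper30.KB

open Helper30.KO

theorem tBridge : Helper23.KB.Bridge := bridge Helper31.KBC.tWedge

/-- `n` lines, `n ≥ 4` even, count at most `n (3 n - 7) / 9` triangles -/
theorem upper_all {n : ℕ} (hn : Even n) (h4 : 4 ≤ n) (L : Finset (Set Plane))
    (hL : ∀ ℓ ∈ L, IsLine ℓ) (hc : L.card = n) :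
    {V : Finset Plane | Counted (L : Set (Set Plane)) V}.encard ≤
      ((n * (3 * n - 7) / 9 : ℕ) : ℕ∞) :=
  upper_all_of Helper23.KB.tBound tBridge hn h4 L hL hc

end Pool.Agent.Helper30.KB
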