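import Pool.Agent.Helper30.KB.Adj

/-!
# Triangles
-/

namespace Pool.Agent.Helper30.KB

open Finset Helper30.KO

variable {n : ℕ} {a : Arr n}

/-- an empty triangle of the arrangement -/
structure Emp (a : Arr n) (A : Finset (Fin n)) : Prop where
  card3 : A.card = 3
  ne : ∀ i ∈ A, ∀ j ∈ A, ∀ k ∈ A, i ≠ j → i ≠ k → j ≠ k → a.X i j ≠ a.X i k
  emp : ∀ i ∈ A, ∀ j ∈ A, ∀ k ∈ A, i ≠ j → i ≠ k → j ≠ k →
    ∀ l, l ≠ i → ¬ (a.X i j < a.X i l ∧ a.X i l < a.X i k)

/-- the three lines are in cyclic order -/
def cyc (i j k : Fin n) : Prop := (i < j ∧ j < k) ∨ (j < k ∧ k < i) ∨ (k < i ∧ i < j)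

lemma cyc.rot {i j k : Fin n} (h : cyc i j k) : cyc j k i := by
  unfold cyc at *; tauto

lemma cyc.ne {i j k : Fin n} (h : cyc i j k) : i ≠ j ∧ i ≠ k ∧ j ≠ k := by
  rcases h with h | h | h
  · exact ⟨h.1.ne, (h.1.trans h.2).ne, h.2.ne⟩
  · exact ⟨(h.1.trans h.2).ne', h.2.ne', h.1.ne⟩
  · exact ⟨h.2.ne, h.1.ne', (h.1.trans h.2).ne'⟩

lemma cyc_or {i j k : Fin n} (h1 : i ≠ j) (h2 : i ≠ k) (h3 : j ≠ k) :
    cyc i j k ∨ cyc j i k := by
  unfold cyc
  rcases lt_or_gt_of_ne h1 with a1 | a1 <;> rcases lt_or_gt_of_ne h2 with a2 | a2 <;>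
    rcases lt_or_gt_of_ne h3 with a3 | a3
  all_goals first
    | exact Or.inl (Or.inl ⟨by assumption, by assumption⟩)
    | exact Or.inl (Or.inr (Or.inl ⟨by assumption, by assumption⟩))
    | exact Or.inl (Or.inr (Or.inr ⟨by assumption, by assumption⟩))
    | exact Or.inr (Or.inl ⟨by assumption, by assumption⟩)
    | exact Or.inr (Or.inr (Or.inl ⟨by assumption, by assumption⟩))
    | exact Or.inr (Or.inr (Or.inr ⟨by assumption, by assumption⟩))

/-- an empty triangle with named lines in cyclic order -/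
structure Ct (a : Arr n) (i j k : Fin n) : Prop where
  c : cyc i j k
  e : Emp a {i, j, k}

lemma set_rot (i j k : Fin n) : ({j, k, i} : Finset (Fin n)) = {i, j, k} := by
  ext x; simp only [mem_insert, mem_singleton]; tauto

lemma Ct.rot {i j k : Fin n} (h : Ct a i j k) : Ct a j k i :=
  ⟨h.c.rot, by rw [set_rot]; exact h.e⟩

lemma Ct.nx_ne {i j k : Fin n} (h : Ct a i j k) : a.X i j ≠ a.X i k :=
  h.e.ne i (by simp) j (by simp) k (by simp) h.c.ne.1 h.c.ne.2.1 h.c.ne.2.2

lemma Ct.empi {i j k : Fin n} (h : Ct a i j k) {l : Fin n} (hl : l ≠ i) (d : Bool) :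
    ¬ (dl d (a.X i j) (a.X i l) ∧ dl d (a.X i l) (a.X i k)) := by
  cases d
  · rw [dl_false, dl_false]
    rintro ⟨h1, h2⟩
    exact h.e.emp i (by simp) k (by simp) j (by simp) h.c.ne.2.1 h.c.ne.1 h.c.ne.2.2.symm l hl
      ⟨h2, h1⟩
  · rw [dl_true, dl_true]
    exact h.e.emp i (by simp) j (by simp) k (by simp) h.c.ne.1 h.c.ne.2.1 h.c.ne.2.2 l hl

/-- no line separates on the line `k` -/
lemma Ct.empk {i j k : Fin n} (h : Ct a i j k) {l : Fin n} (hl : l ≠ k) :
    ¬ ((a.X i k < a.X k l ∧ a.X k l < a.X j k) ∨ (a.X j k < a.X k l ∧ a.X k l < a.X i k)) := by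
  have s1 := a.sym i k
  have s2 := a.sym j k
  rw [s1, s2]
  rintro (⟨h1, h2⟩ | ⟨h1, h2⟩)
  · exact h.e.emp k (by simp) i (by simp) j (by simp) h.c.ne.2.1.symm h.c.ne.2.2.symm h.c.ne.1
      l hl ⟨h1, h2⟩
  · exact h.e.emp k (by simp) j (by simp) i (by simp) h.c.ne.2.2.symm h.c.ne.2.1.symm
      h.c.ne.1.symm l hl ⟨h1, h2⟩

open Classical in
/-- the half-edge from the crossing of `i` and `j` in the direction of `k` -/
noncomputable def EH (a : Arr n) (i j k : Fin n) (hij : j ≠ i) : HE a :=
  mkH i (a.X i j) (decide (a.X i j < a.X i k)) (X_mem_vals a hij)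

lemma dl_dec {x y : ℝ} (h : x ≠ y) : dl (decide (x < y)) x y := by
  by_cases h1 : x < y
  · simp [dl, h1]
  · simp only [h1, decide_false, dl_false]
    exact lt_of_le_of_ne (not_lt.mp h1) h.symm

lemma dl_dir {d : Bool} {x y : ℝ} (h : dl d x y) : d = decide (x < y) := by
  cases d
  · rw [dl_false] at h
    simp [not_lt.mpr h.le]
  · rw [dl_true] at h
    simp [h]

lemma not_dec {x y : ℝ} (h : x ≠ y) : (!decide (x < y)) = decide (y < x) := by
  rcases lt_or_gt_of_ne h with h1 | h1
  · simp [h1, not_lt.mpr h1.le]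
  · simp [h1, not_lt.mpr h1.le]

lemma Ct.nxt {i j k : Fin n} (h : Ct a i j k) :
    Nxt a i (a.X i j) (decide (a.X i j < a.X i k)) (a.X i k) := by
  refine ⟨X_mem_vals a h.c.ne.2.1.symm, dl_dec h.nx_ne, ?_⟩
  intro z hz h1 h2
  obtain ⟨l, hl, rfl⟩ := (mem_vals a).mp hz
  exact h.empi hl _ ⟨h1, h2⟩

lemma Ct.rv_EH {i j k : Fin n} (h : Ct a i j k) :
    (EH a i j k h.c.ne.1.symm).rv = EH a i k j h.c.ne.2.1.symm := by
  rw [rv_of (h := EH a i j k h.c.ne.1.symm) (y := a.X i k) h.nxt]
  apply HE.ext'
  · rfl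
  · rfl
  · exact not_dec h.nx_ne

/-- key lemma: rotation at a corner -/
lemma Ct.nx_EH {i j k : Fin n} (h : Ct a i j k) :
    (EH a i j k h.c.ne.1.symm).nx = EH a j i k h.c.ne.1 := by
  have hk := @Ct.empk _ _ _ _ _ h
  have n1 := h.nx_ne
  obtain ⟨q1, q2, q3⟩ := h.c.ne
  have sij := a.sym i j
  have sik := a.sym i k
  have sjk := a.sym j k
  have hxj : j ∈ (EH a i j k h.c.ne.1.symm).S := (mem_Ls a).mpr (Or.inr rfl)
  have hmem : ∀ l ∈ (EH a i j k h.c.ne.1.symm).S, l ≠ i → l ≠ j → a.X i l = a.X i j ∧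
      a.X j l = a.X i j := by
    intro l hl h1 h2
    have hi : i ∈ (EH a i j k h.c.ne.1.symm).S := self_mem_Ls a _ _
    exact ⟨X_of_mem a hi hl h1.symm, X_of_mem a hxj hl h2.symm⟩
  rcases h.c with hc | hc | hc
  · -- i < j < k
    have hd : decide (a.X j i < a.X j k) = decide (a.X i j < a.X i k) := by
      rcases a.bt i j k hc.1 hc.2 with e | e | e
      · have e1 : a.X j i < a.X j k := by linarith [e.1, e.2]
        simp [e.1, e1]
      · have e1 : ¬ a.X j i < a.X j k := by linarith [e.1, e.2]
        have e2 : ¬ a.X i j < a.X i k := by linarith [e.1, e.2]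
        simp [e1, e2]
      · exact absurd e.1 n1
    rw [nx_next hxj hc.1]
    · apply HE.ext'
      · rfl
      · exact a.sym i j
      · exact hd.symm
    · intro l hl hil
      change i < l at hil
      by_contra hlt
      have hlj : l < j := not_le.mp hlt
      obtain ⟨m1, m2⟩ := hmem l hl hil.ne' hlj.ne
      have slj := a.sym j l
      have slk := a.sym l k
      have hlk : l < k := hlj.trans hc.2
      refine hk hlk.ne ?_
      rcases a.bt i j k hc.1 hc.2 with e | e | e
      · left
        rcases a.bt i l k hil hlk with f | f | f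
        · rcases a.bt l j k hlj hc.2 with g | g | g
          · constructor <;> linarith [e.1, e.2, f.1, f.2, g.1, g.2]
          · exfalso; linarith [e.1, e.2, f.1, f.2, g.1, g.2]
          · exfalso; linarith [e.1, e.2, f.1, f.2, g.1, g.2]
        · exfalso; linarith [e.1, e.2, f.1, f.2]
        · exfalso; linarith [e.1, e.2, f.1, f.2]
      · right
        rcases a.bt i l k hil hlk with f | f | f
        · exfalso; linarith [e.1, e.2, f.1, f.2]
        · rcases a.bt l j k hlj hc.2 with g | g | g
          · exfalso; linarith [e.1, e.2, f.1, f.2, g.1, g.2]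
          · constructor <;> linarith [e.1, e.2, f.1, f.2, g.1, g.2]
          · exfalso; linarith [e.1, e.2, f.1, f.2, g.1, g.2]
        · exfalso; linarith [e.1, e.2, f.1, f.2]
      · exact absurd e.1 n1
  · -- j < k < i
    have hji : j < i := hc.1.trans hc.2
    have hd : decide (a.X j i < a.X j k) = !decide (a.X i j < a.X i k) := by
      rcases a.bt j k i hc.1 hc.2 with e | e | e
      · have e1 : ¬ a.X j i < a.X j k := by linarith [e.1, e.2]
        have e2 : a.X i j < a.X i k := by linarith [e.1, e.2]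
        simp [e1, e2]
      · have e1 : a.X j i < a.X j k := by linarith [e.1, e.2]
        have e2 : ¬ a.X i j < a.X i k := by linarith [e.1, e.2]
        simp [e1, e2]
      · exact absurd (by linarith [e.1, e.2]) n1
    rw [nx_wrap hxj]
    · apply HE.ext'
      · rfl
      · exact a.sym i j
      · exact hd.symm
    · intro l hl
      change l ≤ i
      by_contra hlt
      have hil : i < l := not_le.mp hlt
      obtain ⟨m1, m2⟩ := hmem l hl hil.ne' (hji.trans hil).ne'
      have slk := a.sym k l
      have hkl : k < l := hc.2.trans hil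
      refine hk hkl.ne' ?_
      rcases a.bt j k i hc.1 hc.2 with e | e | e
      · rcases a.bt j k l hc.1 hkl with f | f | f
        · rcases a.bt k i l hc.2 hil with g | g | g
          · exfalso; linarith [e.1, e.2, f.1, f.2, g.1, g.2]
          · right; constructor <;> linarith [e.1, e.2, f.1, f.2, g.1, g.2]
          · exfalso; linarith [e.1, e.2, f.1, f.2, g.1, g.2]
        · exfalso; linarith [e.1, e.2, f.1, f.2]
        · exfalso; linarith [e.1, e.2, f.1, f.2]
      · rcases a.bt j k l hc.1 hkl with f | f | f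
        · exfalso; linarith [e.1, e.2, f.1, f.2]
        · rcases a.bt k i l hc.2 hil with g | g | g
          · left; constructor <;> linarith [e.1, e.2, f.1, f.2, g.1, g.2]
          · exfalso; linarith [e.1, e.2, f.1, f.2, g.1, g.2]
          · exfalso; linarith [e.1, e.2, f.1, f.2, g.1, g.2]
        · exfalso; linarith [e.1, e.2, f.1, f.2]
      · exact absurd (by linarith [e.1, e.2]) n1
    · intro l hl
      by_contra hlt
      have hlj : l < j := not_le.mp hlt
      obtain ⟨m1, m2⟩ := hmem l hl (hlj.trans hji).ne hlj.ne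
      have slj := a.sym l j
      have sli := a.sym l i
      have slk := a.sym k l
      have hlk : l < k := hlj.trans hc.1
      refine hk hlk.ne ?_
      rcases a.bt j k i hc.1 hc.2 with e | e | e
      · rcases a.bt l j k hlj hc.1 with f | f | f
        · exfalso; linarith [e.1, e.2, f.1, f.2]
        · rcases a.bt l k i hlk hc.2 with g | g | g
          · right; constructor <;> linarith [e.1, e.2, f.1, f.2, g.1, g.2]
          · exfalso; linarith [e.1, e.2, f.1, f.2, g.1, g.2]
          · exfalso; linarith [e.1, e.2, f.1, f.2, g.1, g.2]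
        · exfalso; linarith [e.1, e.2, f.1, f.2]
      · rcases a.bt l j k hlj hc.1 with f | f | f
        · rcases a.bt l k i hlk hc.2 with g | g | g
          · exfalso; linarith [e.1, e.2, f.1, f.2, g.1, g.2]
          · left; constructor <;> linarith [e.1, e.2, f.1, f.2, g.1, g.2]
          · exfalso; linarith [e.1, e.2, f.1, f.2, g.1, g.2]
        · exfalso; linarith [e.1, e.2, f.1, f.2]
        · exfalso; linarith [e.1, e.2, f.1, f.2]
      · exact absurd (by linarith [e.1, e.2]) n1
  · -- k < i < j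
    have hkj : k < j := hc.1.trans hc.2
    have hd : decide (a.X j i < a.X j k) = decide (a.X i j < a.X i k) := by
      rcases a.bt k i j hc.1 hc.2 with e | e | e
      · have e1 : ¬ a.X j i < a.X j k := by linarith [e.1, e.2]
        have e2 : ¬ a.X i j < a.X i k := by linarith [e.1, e.2]
        simp [e1, e2]
      · have e1 : a.X j i < a.X j k := by linarith [e.1, e.2]
        have e2 : a.X i j < a.X i k := by linarith [e.1, e.2]
        simp [e1, e2]
      · exact absurd (by linarith [e.1, e.2]) n1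
    rw [nx_next hxj hc.2]
    · apply HE.ext'
      · rfl
      · exact a.sym i j
      · exact hd.symm
    · intro l hl hil
      change i < l at hil
      by_contra hlt
      have hlj : l < j := not_le.mp hlt
      obtain ⟨m1, m2⟩ := hmem l hl hil.ne' hlj.ne
      have slj := a.sym j l
      have hkl : k < l := hc.1.trans hil
      refine hk hkl.ne' ?_
      rcases a.bt k i j hc.1 hc.2 with e | e | e
      · rcases a.bt k i l hc.1 hil with f | f | f
        · rcases a.bt k l j hkl hlj with g | g | g
          · left; constructor <;> linarith [e.1, e.2, f.1, f.2, g.1, g.2]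
          · exfalso; linarith [e.1, e.2, f.1, f.2, g.1, g.2]
          · exfalso; linarith [e.1, e.2, f.1, f.2, g.1, g.2]
        · exfalso; linarith [e.1, e.2, f.1, f.2]
        · exfalso; linarith [e.1, e.2, f.1, f.2]
      · rcases a.bt k i l hc.1 hil with f | f | f
        · exfalso; linarith [e.1, e.2, f.1, f.2]
        · rcases a.bt k l j hkl hlj with g | g | g
          · exfalso; linarith [e.1, e.2, f.1, f.2, g.1, g.2]
          · right; constructor <;> linarith [e.1, e.2, f.1, f.2, g.1, g.2]
          · exfalso; linarith [e.1, e.2, f.1, f.2, g.1, g.2]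
        · exfalso; linarith [e.1, e.2, f.1, f.2]
      · exact absurd (by linarith [e.1, e.2]) n1

end Pool.Agent.Helper30.KB
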